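import Pool.Agent.L7h33.DQ.Stm

/-!
# Project DQ, parts JET and DTM
-/

set_option autoImplicit false

namespace Pool.Agent.L7h89.DQ

open Polynomial Pool.Agent.L7h33.DQ Pool.Agent.K7.H54.DP

namespace Jt

lemma iteratedDeriv_eval (p : ℂ[X]) (j : ℕ) (z : ℂ) :
    iteratedDeriv j (fun x => p.eval x) z = ((derivative^[j]) p).eval z := by
  induction j generalizing p with
  | zero => simp
  | succ j ih =>
    rw [iteratedDeriv_succ', Function.iterate_succ, Function.comp_apply, ← ih]
    congr 1
    ext x
    exact p.deriv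

end Jt

/-- **JET** -/
theorem s_JET : S_JET := by
  intro u z r B j hr h
  set p : ℂ[X] := u.map (Int.castRingHom ℂ) with hp
  have h1 := Complex.norm_iteratedDeriv_le_of_forall_mem_sphere_norm_le (c := z) (R := r) (C := B)
    (f := fun x => p.eval x) j hr p.differentiable.diffContOnCl (fun x hx => by
      refine h x ?_
      rw [mem_sphere_iff_norm] at hx
      exact hx.le)
  rw [Jt.iteratedDeriv_eval, ← factorial_smul_hasseDeriv] at h1
  have h2 : ev (hasseDeriv j u) z = (hasseDeriv j p).eval z := by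
    rw [ev]
    congr 1
    ext n
    rw [coeff_map, hasseDeriv_coeff, hasseDeriv_coeff, hp, coeff_map]
    simp
  rw [h2]
  have h3 : eval z ((j.factorial • hasseDeriv j) p) = j.factorial * (hasseDeriv j p).eval z := by
    rw [LinearMap.smul_apply, nsmul_eq_mul, eval_mul, eval_natCast]
  rw [h3, norm_mul, Complex.norm_natCast, mul_div_assoc] at h1
  exact le_of_mul_le_mul_left h1 (by exact_mod_cast j.factorial_pos)

namespace Dt

/-- the change of coordinates -/
noncomputable def U (d K : ℕ) (G : ℤ[X]) (z : ℂ) : Matrix (Fin d) (Fin d) ℂ :=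
  Matrix.of fun l j => if (j : ℕ) < K then ((l : ℕ).choose j : ℂ) * z ^ ((l : ℕ) - j)
    else if (l : ℕ) ≤ G.natDegree + j then ((G.coeff (G.natDegree + j - l) : ℤ) : ℂ) else 0

lemma U_lower (d K : ℕ) (G : ℤ[X]) (z : ℂ) : (U d K G z).IsLowerTriangular := by
  intro l j hlj
  have h : (l : ℕ) < j := by
    have : l < j := hlj
    exact this
  rw [U, Matrix.of_apply]
  split_ifs with h1 h2
  · rw [Nat.choose_eq_zero_of_lt h]
    simp
  · rw [coeff_eq_zero_of_natDegree_lt (by omega)]
    simp
  · rfl

lemma U_det (d K : ℕ) (G : ℤ[X]) (z : ℂ) (hG : G.Monic) : (U d K G z).det = 1 := by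
  rw [Matrix.det_of_isLowerTriangular _ (U_lower d K G z)]
  refine Finset.prod_eq_one fun j _ => ?_
  rw [U, Matrix.of_apply]
  split_ifs with h1 h2
  · simp
  · rw [Nat.add_sub_cancel, hG.coeff_natDegree]
    simp
  · omega

lemma mul_U (d K : ℕ) (v : Fin d → ℤ[X]) (G : ℤ[X]) (z : ℂ) (hv : ∀ i, (v i).natDegree < d)
    (i j : Fin d) :
    ((Matrix.of fun i j : Fin d => (((v i).coeff j : ℤ) : ℂ)) * U d K G z) i j =
      if (j : ℕ) < K then ev (hasseDeriv j (v i)) z
        else (((G * v i).coeff (G.natDegree + j) : ℤ) : ℂ) := by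
  rw [Matrix.mul_apply]
  simp only [Matrix.of_apply, U]
  split_ifs with h
  · rw [ev, hasseDeriv_apply, sum_over_range' _ (by simp) d (hv i), Polynomial.map_sum,
      eval_finsetSum, Finset.sum_range]
    refine Finset.sum_congr rfl fun l _ => ?_
    rw [map_monomial, eval_monomial]
    simp only [map_mul, map_natCast, eq_intCast]
    ring
  · have h1 : v i = ∑ l ∈ Finset.range d, C ((v i).coeff l) * X ^ l := (v i).as_sum_range_C_mul_X_pow' (hv i)
    conv_rhs => rw [h1]
    rw [Finset.mul_sum, finsetSum_coeff, Finset.sum_range, Int.cast_sum]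
    refine Finset.sum_congr rfl fun l _ => ?_
    rw [← mul_assoc, coeff_mul_X_pow', mul_comm G, coeff_C_mul]
    split_ifs with h2
    · push_cast
      ring
    · simp

end Dt

/-- **DTM** -/
theorem s_DTM : S_DTM := by
  intro d K v G z τ hG hτ hv hc hdet hT
  set V : Matrix (Fin d) (Fin d) ℤ := Matrix.of fun i j : Fin d => (v i).coeff j with hV
  have e1 : (Matrix.of fun i j : Fin d => (((v i).coeff j : ℤ) : ℂ)) = V.map (Int.castRingHom ℂ) := by
    ext i j
    simp [hV]
  set W := (Matrix.of fun i j : Fin d => (((v i).coeff j : ℤ) : ℂ)) * Dt.U d K G z with hW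
  have e2 : W.det = ((V.det : ℤ) : ℂ) := by
    rw [hW, Matrix.det_mul, Dt.U_det d K G z hG, mul_one, e1]
    exact (RingHom.map_det (Int.castRingHom ℂ) V).symm
  have h1 : 1 ≤ ‖W.det‖ := by
    rw [e2, Complex.norm_intCast]
    have : 1 ≤ |V.det| := Int.one_le_abs hdet
    exact_mod_cast this
  refine h1.trans ?_
  rw [Matrix.det_apply]
  have h2 : ∀ i j : Fin d, ‖W i j‖ ≤ if (j : ℕ) < K then τ else 1 := by
    intro i j
    rw [hW, Dt.mul_U d K v G z hv]
    split_ifs with h
    · exact hT i j h
    · rw [Complex.norm_intCast]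
      exact_mod_cast hc i _
  calc ‖∑ σ : Equiv.Perm (Fin d), Equiv.Perm.sign σ • ∏ i, W (σ i) i‖
      ≤ ∑ σ : Equiv.Perm (Fin d), ‖Equiv.Perm.sign σ • ∏ i, W (σ i) i‖ := norm_sum_le _ _
    _ ≤ ∑ _σ : Equiv.Perm (Fin d), τ ^ (min K d) := by
        refine Finset.sum_le_sum fun σ _ => ?_
        have h3 : ‖Equiv.Perm.sign σ • ∏ i, W (σ i) i‖ = ∏ i, ‖W (σ i) i‖ := by
          rcases Int.units_eq_one_or (Equiv.Perm.sign σ) with h | h <;> rw [h] <;> simp
        rw [h3]
        calc ∏ i, ‖W (σ i) i‖ ≤ ∏ i : Fin d, (if (i : ℕ) < K then τ else 1) :=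
              Finset.prod_le_prod (fun i _ => norm_nonneg _) fun i _ => h2 _ _
          _ = ∏ i ∈ Finset.range d, (if i < K then τ else 1) :=
              Fin.prod_univ_eq_prod_range (fun i => if i < K then τ else 1) d
          _ = τ ^ (min K d) := by
              rw [Finset.prod_ite, Finset.prod_const, Finset.prod_const_one, mul_one]
              congr 1
              have h4 : (Finset.range d).filter (fun i => i < K) = Finset.range (min K d) := by
                ext i
                simp only [Finset.mem_filter, Finset.mem_range, lt_min_iff]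
                tauto
              rw [h4, Finset.card_range]
    _ = d.factorial * τ ^ (min K d) := by
        rw [Finset.sum_const, Finset.card_univ, Fintype.card_perm, Fintype.card_fin, nsmul_eq_mul]

end Pool.Agent.L7h89.DQ
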