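import Pool.Agent.L7h89.DQ.Spa
import Pool.Agent.L7h89.DQ.Jet

/-!
# Project DQ, part DET
-/

set_option autoImplicit false

namespace Pool.Agent.L7h89.DQ

open Polynomial Pool.Agent.L7h33.DQ Pool.Agent.K7.H54.DP

lemma ev_mul (P Q : ℤ[X]) (x : ℂ) : ev (P * Q) x = ev P x * ev Q x := by
  simp [ev]

lemma ev_X_pow (k : ℕ) (x : ℂ) : ev (X ^ k) x = x ^ k := by
  simp [ev]

/-- **DET** -/
theorem s_DET : S_DET := by
  intro N K z r β Δ G M hN hK hr hrN hβ hz hflat hne hdiv hG hspan hev hsm h1 h2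
  have hN' : (1 : ℝ) ≤ N := by exact_mod_cast hN
  have hr1 : r ≤ 1 := hrN.trans (by rw [div_le_one (by linarith)]; exact hN')
  have hG0 : G ≠ 0 := hG.ne_zero
  -- the cofactors
  have hcof : ∀ P ∈ Δ, ∀ u : ℤ[X], P = G * u → ∀ x : ℂ, ‖x - z‖ ≤ r → ‖ev u x‖ ≤ β := by
    intro P hP u hu x hx
    have h3 := hsm P hP x hx
    rw [hu, ev_mul, norm_mul, mul_comm] at h3
    exact le_of_mul_le_mul_right h3 (norm_pos_iff.2 (hev x hx))
  have hdeg : ∀ P ∈ Δ, ∀ u : ℤ[X], P = G * u → u.natDegree < N := by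
    intro P hP u hu
    by_cases hu0 : u = 0
    · rw [hu0, natDegree_zero]
      omega
    · have h3 := (hflat P hP).1
      rw [hu, natDegree_mul hG0 hu0] at h3
      omega
  -- the largest degree
  obtain ⟨m, ⟨P₀, hP₀, u₀, hPu₀, hu₀d, hu₀0⟩, hmax⟩ : ∃ m : ℕ,
      (∃ P ∈ Δ, ∃ u : ℤ[X], P = G * u ∧ u.natDegree = m ∧ u ≠ 0) ∧
      ∀ m', (∃ P ∈ Δ, ∃ u : ℤ[X], P = G * u ∧ u.natDegree = m' ∧ u ≠ 0) → m' ≤ m := by
    classical
    have h3 : ∃ m, ∃ P ∈ Δ, ∃ u : ℤ[X], P = G * u ∧ u.natDegree = m ∧ u ≠ 0 := by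
      obtain ⟨P, hP, hP0⟩ := hne
      obtain ⟨u, hu⟩ := hdiv P hP
      refine ⟨_, P, hP, u, hu, rfl, ?_⟩
      rintro rfl
      exact hP0 (by rw [hu, mul_zero])
    have h4 : ∀ m', (∃ P ∈ Δ, ∃ u : ℤ[X], P = G * u ∧ u.natDegree = m' ∧ u ≠ 0) → m' ≤ N := by
      rintro m' ⟨P, hP, u, hu, rfl, -⟩
      exact (hdeg P hP u hu).le
    obtain ⟨m₁, hm₁⟩ := h3
    refine ⟨Nat.findGreatest (fun m => ∃ P ∈ Δ, ∃ u : ℤ[X], P = G * u ∧ u.natDegree = m ∧ u ≠ 0) N,
      Nat.findGreatest_spec (P := fun m => ∃ P ∈ Δ, ∃ u : ℤ[X], P = G * u ∧ u.natDegree = m ∧ u ≠ 0)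
        (h4 m₁ hm₁) hm₁, ?_⟩
    intro m' hm'
    exact Nat.le_findGreatest (h4 m' hm') hm'
  have hmN : m < N := hu₀d ▸ hdeg P₀ hP₀ u₀ hPu₀
  have hmax' : ∀ P ∈ Δ, ∃ u : ℤ[X], P = G * u ∧ u.natDegree ≤ m := by
    intro P hP
    obtain ⟨u, hu⟩ := hdiv P hP
    refine ⟨u, hu, ?_⟩
    by_cases hu0 : u = 0
    · rw [hu0, natDegree_zero]
      exact Nat.zero_le _
    · exact hmax _ ⟨P, hP, u, hu, rfl, hu0⟩
  set τ : ℝ := 3 * β / r ^ K with hτ
  have hτ0 : 0 ≤ τ := by positivity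
  have hrK : r ^ K ≤ 1 := pow_le_one₀ hr.le hr1
  have hβτ : 3 * β ≤ τ := by
    rw [hτ, le_div_iff₀ (by positivity)]
    exact mul_le_of_le_one_right (by positivity) hrK
  rcases Nat.eq_zero_or_pos m with hm0 | hm
  · -- the cofactors are constants
    have h3 : u₀ = C (u₀.coeff 0) := eq_C_of_natDegree_eq_zero (hu₀d.trans hm0)
    have h4 := hcof P₀ hP₀ u₀ hPu₀ z (by simpa using hr.le)
    have h5 : ev u₀ z = ((u₀.coeff 0 : ℤ) : ℂ) := by
      rw [h3, ev, map_C, eval_C]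
      simp
    have h6 : u₀.coeff 0 ≠ 0 := by
      intro h
      rw [h, C_0] at h3
      exact hu₀0 h3
    rw [h5, Complex.norm_intCast] at h4
    have h7 : (1 : ℝ) ≤ |((u₀.coeff 0 : ℤ) : ℝ)| := by exact_mod_cast Int.one_le_abs h6
    nlinarith
  obtain ⟨v, hv, hdet⟩ := s_SPA Δ G M m hG0 hmax' ⟨P₀, hP₀, u₀, hPu₀, hu₀d, hu₀0⟩ hspan
  have hexp : (1 + 1 / (N : ℝ)) ^ N ≤ 3 := by
    have h3 : 1 + 1 / (N : ℝ) ≤ Real.exp (1 / N) := by
      rw [add_comm]
      exact Real.add_one_le_exp _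
    calc (1 + 1 / (N : ℝ)) ^ N ≤ Real.exp (1 / N) ^ N := pow_le_pow_left₀ (by positivity) h3 _
      _ = Real.exp 1 := by
          rw [← Real.exp_nat_mul]
          congr 1
          field_simp
      _ ≤ 3 := by
          have := Real.exp_one_lt_d9
          linarith
  have key := s_DTM (2 * m) K v G z τ hG hτ0 ?_ ?_ hdet ?_
  · rcases le_total K (2 * m) with hle | hle
    · rw [min_eq_left hle] at key
      have h3 : ((2 * m).factorial : ℝ) ≤ (2 * (N : ℝ)) ^ (2 * N) := by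
        have h4 : (2 * m).factorial ≤ (2 * N) ^ (2 * N) :=
          ((Nat.factorial_le_pow _).trans (Nat.pow_le_pow_left (by omega) _)).trans
            (Nat.pow_le_pow_right (by omega) (by omega))
        exact_mod_cast h4
      have h5 : ((2 * m).factorial : ℝ) * τ ^ K ≤ (2 * (N : ℝ)) ^ (2 * N) * τ ^ K :=
        mul_le_mul_of_nonneg_right h3 (by positivity)
      rw [mul_comm] at h2
      linarith
    · rw [min_eq_right hle] at key
      have h3 : ((2 * m).factorial : ℝ) ≤ (2 * (N : ℝ)) ^ (2 * m) := by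
        have h4 : (2 * m).factorial ≤ (2 * N) ^ (2 * m) :=
          (Nat.factorial_le_pow _).trans (Nat.pow_le_pow_left (by omega) _)
        exact_mod_cast h4
      have h5 : ((2 * m).factorial : ℝ) * τ ^ (2 * m) ≤ (τ * (2 * N)) ^ (2 * m) := by
        rw [mul_pow, mul_comm]
        exact mul_le_mul_of_nonneg_left h3 (by positivity)
      have h6 : (τ * (2 * N)) ^ (2 * m) < 1 := pow_lt_one₀ (by positivity) h1 (by omega)
      linarith
  · intro i
    obtain ⟨P, hP, u, k, hk, hu, hvi⟩ := hv i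
    rw [hvi]
    obtain ⟨u', hu', hd'⟩ := hmax' P hP
    have h3 : u = u' := mul_left_cancel₀ hG0 (hu.symm.trans hu')
    refine lt_of_le_of_lt natDegree_mul_le ?_
    rw [natDegree_X_pow, h3]
    omega
  · intro i j
    obtain ⟨P, hP, u, k, hk, hu, hvi⟩ := hv i
    have h3 : G * v i = P * X ^ k := by
      rw [hvi, hu]
      ring
    rw [h3, coeff_mul_X_pow']
    split_ifs with h4
    · exact (hflat P hP).2 _
    · simp
  · intro i j hj
    obtain ⟨P, hP, u, k, hk, hu, hvi⟩ := hv i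
    have h3 : ∀ x : ℂ, ‖x - z‖ ≤ r → ‖ev (v i) x‖ ≤ 3 * β := by
      intro x hx
      rw [hvi, ev_mul, norm_mul, ev_X_pow, norm_pow]
      have h4 : ‖x‖ ≤ 1 + 1 / N := by
        calc ‖x‖ = ‖z + (x - z)‖ := by ring_nf
          _ ≤ ‖z‖ + ‖x - z‖ := norm_add_le _ _
          _ ≤ 1 + 1 / N := by rw [hz]; linarith
      have h5 : ‖x‖ ^ k ≤ 3 := by
        calc ‖x‖ ^ k ≤ (1 + 1 / (N : ℝ)) ^ k := pow_le_pow_left₀ (norm_nonneg _) h4 _
          _ ≤ (1 + 1 / (N : ℝ)) ^ N := pow_le_pow_right₀ (by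
              have : (0 : ℝ) ≤ 1 / N := by positivity
              linarith) (by omega)
          _ ≤ 3 := hexp
      exact mul_le_mul h5 (hcof P hP u hu x hx) (norm_nonneg _) (by norm_num)
    refine (s_JET (v i) z r (3 * β) j hr h3).trans ?_
    rw [hτ]
    refine div_le_div_of_nonneg_left (by positivity) (by positivity) ?_
    exact pow_le_pow_of_le_one hr.le hr1 hj.le

end Pool.Agent.L7h89.DQ
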