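import Pool.Agent.L7h89.DQ.Mul
import Pool.Agent.L7h97.DQ.Tot
import Pool.Agent.L7h97.DQ.Cyc
import Pool.Agent.K7.H54.DP.Scale0

/-!
# Project DQ, part LOW
-/

set_option autoImplicit false

namespace Pool.Agent.L7h89.DQ

open Polynomial Pool.Agent.L7h33.DQ Pool.Agent.K7.H54.DP

namespace Lw

/-- the elements of `S` which are `± Φ_q` -/
def Is (q : ℕ) (P : ℤ[X]) : Prop := P = cyclotomic q ℤ ∨ P = -cyclotomic q ℤ

open Classical in
/-- the number of the elements of `S` which are `± Φ_q` -/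
noncomputable def cnt (q : ℕ) (S : Multiset ℤ[X]) : ℕ := S.countP (Is q)

lemma pow_cnt_dvd (q : ℕ) (S : Multiset ℤ[X]) : cyclotomic q ℤ ^ (cnt q S) ∣ S.prod := by
  classical
  induction S using Multiset.induction_on with
  | empty => simp [cnt]
  | cons P S ih =>
    rw [cnt, Multiset.countP_cons, Multiset.prod_cons]
    split_ifs with h
    · rw [pow_succ, mul_comm]
      refine mul_dvd_mul ?_ (by simpa [cnt] using ih)
      rcases h with rfl | rfl
      · exact dvd_rfl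
      · exact (dvd_neg).2 dvd_rfl
    · rw [add_zero]
      exact (by simpa [cnt] using ih : cyclotomic q ℤ ^ (S.countP (Is q)) ∣ S.prod).mul_left P

/-- the weights -/
noncomputable def wt (a B : ℝ) (Q : ℕ) (S : Multiset ℤ[X]) : ℝ :=
  a * (S.map natDegree).sum + B * ∑ q ∈ Finset.Ico 1 Q, (cnt q S : ℝ)

lemma prod_le (a B : ℝ) (Q : ℕ) (x : ℂ) (S : Multiset ℤ[X])
    (h : ∀ P ∈ S, Real.exp (-(wt a B Q {P})) ≤ ‖ev P x‖) :
    Real.exp (-(wt a B Q S)) ≤ ‖ev S.prod x‖ := by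
  classical
  induction S using Multiset.induction_on with
  | empty => simp [wt, cnt, ev]
  | cons P S ih =>
    have h1 := ih fun P' hP' => h P' (Multiset.mem_cons_of_mem hP')
    have h2 := h P (Multiset.mem_cons_self P S)
    have h3 : wt a B Q (P ::ₘ S) = wt a B Q {P} + wt a B Q S := by
      rw [← Multiset.singleton_add]
      simp only [wt, cnt, Multiset.map_add, Multiset.sum_add, Multiset.countP_add, Nat.cast_add,
        Finset.sum_add_distrib]
      ring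
    rw [h3, Multiset.prod_cons, ev_mul, norm_mul, neg_add, Real.exp_add]
    exact mul_le_mul h2 h1 (Real.exp_pos _).le (norm_nonneg _)

lemma pow_sub_pow (x z : ℂ) (R : ℝ) (hR : 1 ≤ R) (hx : ‖x‖ ≤ R) (hz : ‖z‖ = 1) (d : ℕ) :
    ‖x ^ d - z ^ d‖ ≤ d * R ^ d * ‖x - z‖ := by
  induction d with
  | zero => simp
  | succ d ih =>
    have h1 : x ^ (d + 1) - z ^ (d + 1) = x * (x ^ d - z ^ d) + (x - z) * z ^ d := by ring
    rw [h1]
    refine (norm_add_le _ _).trans ?_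
    rw [norm_mul, norm_mul, norm_pow, hz, one_pow, mul_one]
    have h2 : ‖x‖ * ‖x ^ d - z ^ d‖ ≤ R * (d * R ^ d * ‖x - z‖) :=
      mul_le_mul hx ih (norm_nonneg _) (by linarith)
    have h3 : ‖x - z‖ ≤ R ^ (d + 1) * ‖x - z‖ :=
      le_mul_of_one_le_left (norm_nonneg _) (one_le_pow₀ hR)
    push_cast
    calc ‖x‖ * ‖x ^ d - z ^ d‖ + ‖x - z‖ ≤ R * (d * R ^ d * ‖x - z‖) + R ^ (d + 1) * ‖x - z‖ :=
          add_le_add h2 h3
      _ = _ := by ring

/-- the values of the cyclotomic polynomials near `z` -/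
lemma near (c : ℝ) (hc : 0 < c) (hc1 : c ≤ 1) (z x : ℂ) (hz : ‖z‖ = 1) (hD : Dio c z) (N : ℕ)
    (hN : 2 ≤ N) (hNc : 48 / c ≤ N) (hx : ‖x - z‖ ≤ 1 / (N : ℝ) ^ 10) (q : ℕ) (hq : 1 ≤ q)
    (hqN : q ≤ 2 * N ^ 2) :
    (c / 2 / (3 * (q : ℝ) ^ 2)) ^ (2 ^ q.primeFactors.card) ≤ ‖ev (cyclotomic q ℤ) x‖ := by
  have hN2 : (2 : ℝ) ≤ N := by exact_mod_cast hN
  have hNp : (0 : ℝ) < N := by linarith
  refine Pool.Agent.L7h97.DQ.s_CYC q x (c / 2) hq (by positivity) (by linarith) fun d hd => ?_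
  have hd1 : 1 ≤ d := Nat.pos_of_mem_divisors hd
  have hdq : d ≤ 2 * N ^ 2 := (Nat.divisor_le hd).trans hqN
  have hdr : (d : ℝ) ≤ 2 * (N : ℝ) ^ 2 := by exact_mod_cast hdq
  have hdp : (0 : ℝ) < d := by exact_mod_cast hd1
  have hx1 : ‖x‖ ≤ 1 + 1 / (N : ℝ) ^ 10 := by
    calc ‖x‖ = ‖z + (x - z)‖ := by ring_nf
      _ ≤ ‖z‖ + ‖x - z‖ := norm_add_le _ _
      _ ≤ 1 + 1 / (N : ℝ) ^ 10 := by rw [hz]; linarith
  have hR : 1 ≤ 1 + 1 / (N : ℝ) ^ 10 := by
    have : 0 ≤ 1 / (N : ℝ) ^ 10 := by positivity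
    linarith
  have h1 := pow_sub_pow x z _ hR hx1 hz d
  have h2 : (1 + 1 / (N : ℝ) ^ 10) ^ d ≤ 3 := by
    calc (1 + 1 / (N : ℝ) ^ 10) ^ d ≤ Real.exp (1 / (N : ℝ) ^ 10) ^ d := by
          refine pow_le_pow_left₀ (by positivity) ?_ _
          rw [add_comm]
          exact Real.add_one_le_exp _
      _ = Real.exp (d * (1 / (N : ℝ) ^ 10)) := by rw [← Real.exp_nat_mul]
      _ ≤ Real.exp 1 := by
          refine Real.exp_le_exp.2 ?_
          rw [mul_one_div, div_le_one (by positivity)]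
          refine hdr.trans ?_
          have h3 : (2 : ℝ) ≤ (N : ℝ) ^ 8 := by
            calc (2 : ℝ) ≤ (N : ℝ) ^ 1 := by simpa using hN2
              _ ≤ (N : ℝ) ^ 8 := pow_le_pow_right₀ (by linarith) (by norm_num)
          calc 2 * (N : ℝ) ^ 2 ≤ (N : ℝ) ^ 8 * (N : ℝ) ^ 2 :=
                mul_le_mul_of_nonneg_right h3 (by positivity)
            _ = (N : ℝ) ^ 10 := by ring
      _ ≤ 3 := by
          have := Real.exp_one_lt_d9
          linarith
  have h3 : ‖x ^ d - z ^ d‖ ≤ 6 / (N : ℝ) ^ 8 := by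
    calc ‖x ^ d - z ^ d‖ ≤ d * (1 + 1 / (N : ℝ) ^ 10) ^ d * ‖x - z‖ := h1
      _ ≤ (2 * (N : ℝ) ^ 2) * 3 * (1 / (N : ℝ) ^ 10) := by gcongr
      _ = 6 / (N : ℝ) ^ 8 := by
          field_simp
          ring
  have h4 : 6 / (N : ℝ) ^ 8 ≤ c / 2 / (d : ℝ) ^ 2 := by
    have h5 : c / 2 / (2 * (N : ℝ) ^ 2) ^ 2 ≤ c / 2 / (d : ℝ) ^ 2 := by gcongr
    refine le_trans ?_ h5
    rw [div_le_div_iff₀ (by positivity) (by positivity)]
    have h6 : 48 ≤ c * N := by
      rw [div_le_iff₀ hc] at hNc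
      linarith
    have h7 : (N : ℝ) ≤ (N : ℝ) ^ 4 := by
      calc (N : ℝ) = (N : ℝ) ^ 1 := (pow_one _).symm
        _ ≤ (N : ℝ) ^ 4 := pow_le_pow_right₀ (by linarith) (by norm_num)
    have h8 : 48 ≤ c * (N : ℝ) ^ 4 := h6.trans (mul_le_mul_of_nonneg_left h7 hc.le)
    calc 6 * (2 * (N : ℝ) ^ 2) ^ 2 = 48 * ((N : ℝ) ^ 4 / 2) := by ring
      _ ≤ (c * (N : ℝ) ^ 4) * ((N : ℝ) ^ 4 / 2) := mul_le_mul_of_nonneg_right h8 (by positivity)
      _ = c / 2 * (N : ℝ) ^ 8 := by ring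
  have h5 := hD d hd1
  have h6 : ‖z ^ d - 1‖ ≤ ‖x ^ d - z ^ d‖ + ‖x ^ d - 1‖ := by
    calc ‖z ^ d - 1‖ = ‖(x ^ d - 1) - (x ^ d - z ^ d)‖ := by ring_nf
      _ ≤ ‖x ^ d - 1‖ + ‖x ^ d - z ^ d‖ := norm_sub_le _ _
      _ = _ := add_comm _ _
  have h7 : c / (d : ℝ) ^ 2 = c / 2 / (d : ℝ) ^ 2 + c / 2 / (d : ℝ) ^ 2 := by ring
  constructor
  · linarith
  · have h8 : ‖x ^ d - 1‖ ≤ ‖x ^ d - z ^ d‖ + ‖z ^ d - 1‖ := by
      calc ‖x ^ d - 1‖ = ‖(x ^ d - z ^ d) + (z ^ d - 1)‖ := by ring_nf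
        _ ≤ _ := norm_add_le _ _
    have h9 : ‖z ^ d - 1‖ ≤ 2 := by
      refine (norm_sub_le _ _).trans ?_
      rw [norm_pow, hz, one_pow, norm_one]
      norm_num
    have h10 : 6 / (N : ℝ) ^ 8 ≤ 1 := by
      rw [div_le_one (by positivity)]
      calc (6 : ℝ) ≤ 2 ^ 8 := by norm_num
        _ ≤ (N : ℝ) ^ 8 := pow_le_pow_left₀ (by norm_num) hN2 _
    linarith

lemma cnt_single (q : ℕ) (P : ℤ[X]) : (0 : ℝ) ≤ cnt q {P} := Nat.cast_nonneg _

lemma wt_single_ge (a B : ℝ) (hB : 0 ≤ B) (Q : ℕ) (P : ℤ[X]) :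
    a * P.natDegree ≤ wt a B Q {P} := by
  rw [wt]
  simp only [Multiset.map_singleton, Multiset.sum_singleton]
  have : 0 ≤ B * ∑ q ∈ Finset.Ico 1 Q, (cnt q {P} : ℝ) :=
    mul_nonneg hB (Finset.sum_nonneg fun _ _ => Nat.cast_nonneg _)
  linarith

lemma wt_single_ge' (a B : ℝ) (ha : 0 ≤ a) (hB : 0 ≤ B) (Q : ℕ) (P : ℤ[X]) (q : ℕ)
    (hq : q ∈ Finset.Ico 1 Q) (h : Is q P) : B ≤ wt a B Q {P} := by
  classical
  rw [wt]
  simp only [Multiset.map_singleton, Multiset.sum_singleton]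
  have h1 : (1 : ℝ) ≤ ∑ q ∈ Finset.Ico 1 Q, (cnt q {P} : ℝ) := by
    refine le_trans ?_ (Finset.single_le_sum (f := fun q => (cnt q {P} : ℝ))
      (fun _ _ => Nat.cast_nonneg _) hq)
    have : cnt q {P} = 1 := by
      rw [cnt, Multiset.countP_eq_card_filter, Multiset.filter_singleton, if_pos h]
      simp
    rw [this]
    simp
  have h2 : B ≤ B * ∑ q ∈ Finset.Ico 1 Q, (cnt q {P} : ℝ) := le_mul_of_one_le_right hB h1
  have h3 : 0 ≤ a * (P.natDegree : ℝ) := by positivity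
  linarith

lemma norm_ev_neg (P : ℤ[X]) (x : ℂ) : ‖ev (-P) x‖ = ‖ev P x‖ := by
  simp [ev]

/-- the multiplicity of a cyclotomic factor of a flat polynomial -/
lemma cnt_le (N₀ : ℕ) (hMul : ∀ N : ℕ, N₀ ≤ N → ∀ D : ℤ[X], D ≠ 0 → Flat N D →
    ∀ (ζ : ℂ) (e : ℕ), ‖ζ‖ = 1 → (X - C ζ) ^ e ∣ D.map (Int.castRingHom ℂ) →
    (e : ℝ) ≤ (N : ℝ) ^ (3 / 4 : ℝ)) (N : ℕ) (hN : N₀ ≤ N) (D : ℤ[X]) (hD : D ≠ 0)
    (hflat : Flat N D) (S : Multiset ℤ[X]) (hS : S.prod ∣ D) (q : ℕ) (hq : 1 ≤ q) :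
    (cnt q S : ℝ) ≤ (N : ℝ) ^ (3 / 4 : ℝ) := by
  have hprim := Complex.isPrimitiveRoot_exp q (by omega)
  set ζ := Complex.exp (2 * Real.pi * Complex.I / q) with hζ
  have h1 : ‖ζ‖ = 1 := hprim.norm'_eq_one (by omega)
  refine hMul N hN D hD hflat ζ _ h1 ?_
  have h2 : (X - C ζ) ∣ (cyclotomic q ℤ).map (Int.castRingHom ℂ) := by
    rw [map_cyclotomic]
    exact dvd_iff_isRoot.2 (hprim.isRoot_cyclotomic (by omega))
  have h3 := (pow_cnt_dvd q S).trans hS
  have h4 := Polynomial.map_dvd (Int.castRingHom ℂ) h3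
  rw [Polynomial.map_pow] at h4
  exact (pow_dvd_pow_of_dvd h2 _).trans h4

lemma tendsto_aux (k : ℕ) (a : ℝ) (ha : 0 < a) (b : ℝ) (hb : 0 < b) :
    ∀ᶠ N : ℕ in Filter.atTop, b * (Real.log N) ^ k ≤ (N : ℝ) ^ a := by
  have h1 : (fun x : ℝ => Real.log x ^ k) =o[Filter.atTop] fun x => x ^ a := by
    have := isLittleO_log_rpow_rpow_atTop (k : ℝ) ha
    simpa [Real.rpow_natCast] using this
  have h2 := (h1.bound (c := 1 / b) (by positivity))
  have h3 := tendsto_natCast_atTop_atTop.eventually h2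
  filter_upwards [h3, Filter.eventually_ge_atTop 1] with N hN hN1
  have hN1' : (1 : ℝ) ≤ N := by exact_mod_cast hN1
  rw [Real.norm_of_nonneg (by positivity [Real.log_nonneg hN1']),
    Real.norm_of_nonneg (by positivity)] at hN
  rw [one_div, ← div_eq_inv_mul, le_div_iff₀ hb] at hN
  linarith

end Lw

/-- **LOW** -/
theorem s_LOW (hDob : S_DOB) : S_LOW := by
  obtain ⟨C0, hC0, hdob⟩ := hDob
  obtain ⟨htot, hTot⟩ := Pool.Agent.L7h97.DQ.s_TOT
  obtain ⟨N1, hMul⟩ := s_MUL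
  intro c hc
  set c1 : ℝ := min c 1 with hc1
  have hc1p : 0 < c1 := lt_min hc one_pos
  have hc11 : c1 ≤ 1 := min_le_right _ _
  obtain ⟨Q, hQ⟩ := hTot (6 / c1) (by positivity)
  set B : ℝ := ∑ q ∈ Finset.range Q, |(2 : ℝ) ^ q.primeFactors.card * Real.log (6 / c1 * q ^ 2)|
    with hB
  have hB0 : 0 ≤ B := Finset.sum_nonneg fun _ _ => abs_nonneg _
  have hBq : ∀ q ∈ Finset.range Q, (2 : ℝ) ^ q.primeFactors.card * Real.log (6 / c1 * q ^ 2) ≤ B :=
    fun q hq => (le_abs_self _).trans (Finset.single_le_sum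
      (f := fun q : ℕ => |(2 : ℝ) ^ q.primeFactors.card * Real.log (6 / c1 * q ^ 2)|)
      (fun _ _ => abs_nonneg _) hq)
  -- the conditions on `N`
  have hev1 : ∀ᶠ N : ℕ in Filter.atTop, 24 * (B * Q + 1) * (Real.log N) ^ 6 ≤ (N : ℝ) ^ (1 / 4 : ℝ) :=
    Lw.tendsto_aux 6 _ (by norm_num) _ (by positivity)
  have hlogtop : Filter.Tendsto (fun N : ℕ => Real.log N) Filter.atTop Filter.atTop :=
    Real.tendsto_log_atTop.comp tendsto_natCast_atTop_atTop
  have hev2 : ∀ᶠ N : ℕ in Filter.atTop, max 100 (64 / C0) + 1 ≤ Real.log N :=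
    hlogtop.eventually_ge_atTop _
  have hev3 : ∀ᶠ N : ℕ in Filter.atTop, 48 / c1 ≤ (N : ℝ) :=
    tendsto_natCast_atTop_atTop.eventually_ge_atTop _
  obtain ⟨N2, hN2⟩ := Filter.eventually_atTop.1 (hev1.and (hev2.and hev3))
  refine ⟨max (max N1 N2) 2, fun N hN z hz hDio G D hD hflat hGD hGdeg hGM x hx => ?_⟩
  have hNN1 : N1 ≤ N := (le_max_left _ _).trans ((le_max_left _ _).trans hN)
  have hNN2 : N2 ≤ N := (le_max_right _ _).trans ((le_max_left _ _).trans hN)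
  have hN2' : 2 ≤ N := (le_max_right _ _).trans hN
  obtain ⟨e1, e2, e3⟩ := hN2 N hNN2
  have hNr : (2 : ℝ) ≤ N := by exact_mod_cast hN2'
  have hNp : (0 : ℝ) < N := by linarith
  set L := Real.log N with hL
  have hL1 : (101 : ℝ) ≤ L := by linarith [le_max_left (100 : ℝ) (64 / C0)]
  have hL2 : 64 / C0 + 1 ≤ L := by linarith [le_max_right (100 : ℝ) (64 / C0)]
  have hL0 : 0 < L := by linarith
  have hDio1 : Dio c1 z := by
    intro d hd
    refine le_trans ?_ (hDio d hd)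
    have : c1 ≤ c := min_le_left _ _
    gcongr
  have hG0 : G ≠ 0 := fun h => hD (by rw [h, zero_dvd_iff] at hGD; exact hGD)
  -- the factors
  set S := UniqueFactorizationMonoid.factors G with hS
  have hSirr : ∀ P ∈ S, Irreducible P := fun P hP => UniqueFactorizationMonoid.irreducible_of_factor P hP
  have hSass : Associated S.prod G := UniqueFactorizationMonoid.factors_prod hG0
  have hSG : S.prod ∣ G := hSass.dvd
  have hSD : S.prod ∣ D := hSG.trans hGD
  have hPD : ∀ P ∈ S, P ∣ D := fun P hP => (Multiset.dvd_prod hP).trans hSD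
  have hMs : ∀ P ∈ S, Real.log (MM P) ≤ 8 / L ^ 5 := by
    intro P hP
    have h1 : MM P ≤ MM G := MM_le_of_dvd ((Multiset.dvd_prod hP).trans hSG) hG0
    have h2 : 1 ≤ MM P := one_le_MM (hSirr P hP).ne_zero
    calc Real.log (MM P) ≤ Real.log (Real.exp (8 / L ^ 5)) :=
          Real.log_le_log (by linarith) (h1.trans hGM)
      _ = 8 / L ^ 5 := Real.log_exp _
  have hsmall : 8 / L ^ 5 < 1 / 2 := by
    rw [div_lt_div_iff₀ (by positivity) (by norm_num)]
    have : (101 : ℝ) ^ 5 ≤ L ^ 5 := pow_le_pow_left₀ (by norm_num) hL1 _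
    linarith
  -- the types of the factors
  have hdegP : ∀ P ∈ S, 1 ≤ P.natDegree := by
    intro P hP
    by_contra h
    have h0 : P.natDegree = 0 := by omega
    have h1 : P = C (P.coeff 0) := eq_C_of_natDegree_eq_zero h0
    have h2 : MM P = |((P.coeff 0 : ℤ) : ℝ)| := by
      rw [h1, MM, map_C, mahlerMeasure_const]
      simp
    have h3 : P.coeff 0 ≠ 0 := by
      intro h
      rw [h, C_0] at h1
      exact (hSirr P hP).ne_zero h1
    have h4 : ¬ IsUnit (P.coeff 0) := by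
      intro h
      apply (hSirr P hP).not_isUnit
      rw [h1]
      exact h.map C
    have h5 : 2 ≤ |P.coeff 0| := by
      rw [Int.isUnit_iff_abs_eq] at h4
      have := Int.one_le_abs h3
      omega
    have h6 : (2 : ℝ) ≤ MM P := by
      rw [h2]
      exact_mod_cast h5
    have h7 : Real.log 2 ≤ Real.log (MM P) := Real.log_le_log (by norm_num) h6
    have h8 := Real.log_two_gt_d9
    have h9 := hMs P hP
    linarith
  have hdegN : ∀ P ∈ S, P.natDegree < N := fun P hP =>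
    lt_of_le_of_lt (natDegree_le_of_dvd (hPD P hP) hD) hflat.1
  have htype : ∀ P ∈ S, (P = X ∨ P = -X) ∨ ∃ q : ℕ, 1 ≤ q ∧ Lw.Is q P := by
    intro P hP
    by_contra hcon
    push Not at hcon
    obtain ⟨⟨h1, h2⟩, h3⟩ := hcon
    have h4 := hdob P (hSirr P hP) (hdegP P hP) h1 h2 (fun q hq => by
      have := h3 q hq
      rw [Lw.Is, not_or] at this
      exact this)
    have h5 := h4.trans (hMs P hP)
    have h6 : 1 ≤ P.natDegree := hdegP P hP
    have h6' : (1 : ℝ) ≤ P.natDegree := by exact_mod_cast h6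
    have h7 : (P.natDegree : ℝ) ≤ N := by exact_mod_cast (hdegN P hP).le
    have h8 : Real.log (2 * P.natDegree) ≤ 2 * L := by
      calc Real.log (2 * P.natDegree) ≤ Real.log ((N : ℝ) * N) := by
            refine Real.log_le_log (by positivity) ?_
            exact mul_le_mul hNr h7 (by positivity) (by positivity)
        _ = 2 * L := by
            rw [Real.log_mul (by positivity) (by positivity)]
            ring
    have h9 : 0 < Real.log (2 * P.natDegree) := Real.log_pos (by linarith)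
    have h10 : C0 / (2 * L) ^ 3 ≤ C0 / (Real.log (2 * P.natDegree)) ^ 3 := by gcongr
    have h11 := h10.trans h5
    rw [div_le_div_iff₀ (by positivity) (by positivity)] at h11
    have h12 : C0 * L ^ 2 ≤ 64 := by
      have h13 : C0 * L ^ 2 * L ^ 3 ≤ 64 * L ^ 3 := by
        calc C0 * L ^ 2 * L ^ 3 = C0 * L ^ 5 := by ring
          _ ≤ 8 * (2 * L) ^ 3 := h11
          _ = 64 * L ^ 3 := by ring
      exact le_of_mul_le_mul_right h13 (by positivity)
    have h14 : 64 < C0 * L := by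
      have : 64 / C0 < L := by linarith
      rw [div_lt_iff₀ hC0] at this
      linarith
    have h15 : C0 * L ≤ C0 * L ^ 2 := by
      rw [sq, ← mul_assoc]
      exact le_mul_of_one_le_right (by positivity) (by linarith)
    linarith
  -- the value at `x` of one factor
  set a : ℝ := 1 / 24 + 2 / (N : ℝ) ^ 10 with ha
  have ha0 : 0 ≤ a := by positivity
  have hN10 : (1024 : ℝ) ≤ (N : ℝ) ^ 10 := by
    calc (1024 : ℝ) = 2 ^ 10 := by norm_num
      _ ≤ (N : ℝ) ^ 10 := pow_le_pow_left₀ (by norm_num) hNr _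
  have hone : ∀ P ∈ S, Real.exp (-(Lw.wt a B Q {P})) ≤ ‖ev P x‖ := by
    intro P hP
    rcases htype P hP with h | ⟨q, hq1, hq⟩
    · -- `P = ± X`
      have h1 : ‖ev P x‖ = ‖x‖ := by
        rcases h with rfl | rfl
        · simp [ev]
        · simp [ev]
      have h2 : P.natDegree = 1 := by
        rcases h with rfl | rfl <;> simp
      have h3 := Lw.wt_single_ge a B hB0 Q P
      rw [h2, Nat.cast_one, mul_one] at h3
      have h4 : 1 - 1 / (N : ℝ) ^ 10 ≤ ‖x‖ := by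
        have h5 : ‖z‖ ≤ ‖x‖ + ‖x - z‖ := by
          calc ‖z‖ = ‖x - (x - z)‖ := by ring_nf
            _ ≤ _ := norm_sub_le _ _
        rw [hz] at h5
        linarith
      have h6 : (1 : ℝ) / (N : ℝ) ^ 10 ≤ 1 / 1024 := one_div_le_one_div_of_le (by norm_num) hN10
      rw [h1]
      refine le_trans ?_ h4
      have h7 : Real.exp (-(Lw.wt a B Q {P})) ≤ Real.exp (-(2 / (N : ℝ) ^ 10)) := by
        refine Real.exp_le_exp.2 ?_
        rw [ha] at h3
        linarith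
      refine h7.trans ?_
      rw [Real.exp_neg]
      have h8 : 1 + 2 / (N : ℝ) ^ 10 ≤ Real.exp (2 / (N : ℝ) ^ 10) := by
        rw [add_comm]
        exact Real.add_one_le_exp _
      refine (inv_anti₀ (by positivity) h8).trans ?_
      rw [inv_le_iff_one_le_mul₀ (by positivity)]
      have h9 : (2 : ℝ) / (N : ℝ) ^ 10 = 2 * (1 / (N : ℝ) ^ 10) := by ring
      rw [h9]
      have h10 : 0 ≤ 1 / (N : ℝ) ^ 10 := by positivity
      nlinarith
    · -- cyclotomic polynomials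
      have h1 : ‖ev P x‖ = ‖ev (cyclotomic q ℤ) x‖ := by
        rcases hq with rfl | rfl
        · rfl
        · exact Lw.norm_ev_neg _ _
      have h2 : P.natDegree = q.totient := by
        rcases hq with rfl | rfl
        · exact natDegree_cyclotomic q ℤ
        · rw [natDegree_neg, natDegree_cyclotomic]
      have h3 : q ≤ 2 * N ^ 2 := by
        have h4 := htot q hq1
        have h5 := hdegN P hP
        rw [h2] at h5
        exact h4.trans (Nat.mul_le_mul_left _ (Nat.pow_le_pow_left h5.le _))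
      have h4 := Lw.near c1 hc1p hc11 z x hz hDio1 N hN2' e3 hx q hq1 h3
      rw [h1]
      refine le_trans ?_ h4
      have hqr : (1 : ℝ) ≤ q := by exact_mod_cast hq1
      have h5 : (c1 / 2 / (3 * (q : ℝ) ^ 2)) ^ (2 ^ q.primeFactors.card) =
          Real.exp (-((2 : ℝ) ^ q.primeFactors.card * Real.log (6 / c1 * q ^ 2))) := by
        have h6 : c1 / 2 / (3 * (q : ℝ) ^ 2) = Real.exp (-Real.log (6 / c1 * q ^ 2)) := by
          rw [Real.exp_neg, Real.exp_log (by positivity)]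
          field_simp
          ring
        rw [h6, ← Real.exp_nat_mul]
        congr 1
        push_cast
        ring
      rw [h5]
      refine Real.exp_le_exp.2 (neg_le_neg ?_)
      by_cases hqQ : Q ≤ q
      · refine (hQ q hqQ).trans ?_
        have h6 := Lw.wt_single_ge a B hB0 Q P
        rw [h2] at h6
        refine le_trans ?_ h6
        rw [div_eq_inv_mul]
        refine mul_le_mul_of_nonneg_right ?_ (Nat.cast_nonneg _)
        rw [ha]
        have : 0 ≤ 2 / (N : ℝ) ^ 10 := by positivity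
        linarith
      · have h6 : q < Q := not_le.1 hqQ
        exact (hBq q (Finset.mem_range.2 h6)).trans
          (Lw.wt_single_ge' a B ha0 hB0 Q P q (Finset.mem_Ico.2 ⟨hq1, h6⟩) hq)
  have hprod := Lw.prod_le a B Q x S hone
  -- the unit
  have hunit : ‖ev G x‖ = ‖ev S.prod x‖ := by
    obtain ⟨u, hu⟩ := hSass
    rw [← hu, ev_mul, norm_mul]
    obtain ⟨r, hr, hru⟩ := Polynomial.isUnit_iff.1 u.isUnit
    have hCr : ev (C r) x = (r : ℂ) := by simp [ev]
    rw [← hru, hCr]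
    rcases Int.isUnit_iff.1 hr with rfl | rfl <;> simp
  rw [hunit]
  refine le_trans (Real.exp_le_exp.2 (neg_le_neg ?_)) hprod
  -- the sum of the weights
  have hdegS : (S.map natDegree).sum = G.natDegree := by
    rw [← natDegree_multiset_prod _ (fun h => (hSirr 0 h).ne_zero rfl)]
    exact natDegree_eq_of_degree_eq (degree_eq_degree_of_associated hSass)
  rw [Lw.wt, hdegS]
  have h1 : ∑ q ∈ Finset.Ico 1 Q, (Lw.cnt q S : ℝ) ≤ Q * (N : ℝ) ^ (3 / 4 : ℝ) := by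
    calc ∑ q ∈ Finset.Ico 1 Q, (Lw.cnt q S : ℝ) ≤ ∑ q ∈ Finset.Ico 1 Q, (N : ℝ) ^ (3 / 4 : ℝ) :=
          Finset.sum_le_sum fun q hq => Lw.cnt_le N1 hMul N hNN1 D hD hflat S hSD q
            (Finset.mem_Ico.1 hq).1
      _ = ((Q - 1 : ℕ) : ℝ) * (N : ℝ) ^ (3 / 4 : ℝ) := by
          rw [Finset.sum_const, Nat.card_Ico, nsmul_eq_mul]
      _ ≤ Q * (N : ℝ) ^ (3 / 4 : ℝ) := by
          refine mul_le_mul_of_nonneg_right ?_ (by positivity)
          exact_mod_cast Nat.sub_le _ _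
  have hs0 : 0 ≤ sN N := by
    rw [sN]
    positivity
  have h2 : B * (Q * (N : ℝ) ^ (3 / 4 : ℝ)) ≤ sN N / 24 := by
    have h3 : (24 * (B * Q + 1) * L ^ 6) * (N : ℝ) ^ (3 / 4 : ℝ) ≤ N := by
      calc (24 * (B * Q + 1) * L ^ 6) * (N : ℝ) ^ (3 / 4 : ℝ)
          ≤ (N : ℝ) ^ (1 / 4 : ℝ) * (N : ℝ) ^ (3 / 4 : ℝ) :=
            mul_le_mul_of_nonneg_right e1 (by positivity)
        _ = N := by
            rw [← Real.rpow_add hNp]
            norm_num
    rw [sN, le_div_iff₀ (by norm_num), le_div_iff₀ (by positivity)]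
    refine le_trans ?_ h3
    have h4 : 0 ≤ (N : ℝ) ^ (3 / 4 : ℝ) * L ^ 6 := by positivity
    nlinarith
  have h3 : a * G.natDegree ≤ (1 / 24 + 1 / 512) * (4 * sN N) := by
    refine mul_le_mul ?_ hGdeg (Nat.cast_nonneg _) (by norm_num)
    rw [ha]
    have : 2 / (N : ℝ) ^ 10 ≤ 2 / 1024 := by gcongr
    linarith
  have h4 : B * ∑ q ∈ Finset.Ico 1 Q, (Lw.cnt q S : ℝ) ≤ sN N / 24 :=
    (mul_le_mul_of_nonneg_left h1 hB0).trans h2
  linarith

end Pool.Agent.L7h89.DQ
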