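import Pool.Agent.L7h89.DQ.Reg

/-!
# Project DQ, part MMB: the Mahler measure of a common divisor
-/

set_option autoImplicit false

namespace Pool.Agent.L7h89.DQ

open Polynomial Pool.Agent.L7h33.DQ Pool.Agent.K7.H54.DP

/-- **MMB** -/
theorem s_MMB : S_MMB := by
  intro N F b G hN hF h2 hb hG
  have hcard : (Finset.range N \ F).card = N - F.card := by
    rw [Finset.card_sdiff_of_subset hF, Finset.card_range]
  have hne : (Finset.range N \ F).Nonempty := by
    rw [← Finset.card_pos, hcard]
    omega
  constructor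
  · -- the Mahler measure
    obtain ⟨k, hk, c, hkc⟩ := s_REG N F (fun i => (b i).map (Int.castRingHom ℝ)) hN hF h2
      (fun i hi => by
        have h3 := hb i hi
        refine ⟨h3.1.map _, by rw [h3.1.natDegree_map, h3.2.1], fun j => ?_, fun j hj hjF => ?_⟩
        · rw [coeff_map, eq_intCast]
          exact_mod_cast h3.2.2.1 j
        · rw [coeff_map, h3.2.2.2 j hj hjF]
          simp)
    set P : ℝ[X] := (b k).map (Int.castRingHom ℝ) +
      ∑ i ∈ Finset.range k \ F, C (c i) * (b i).map (Int.castRingHom ℝ) with hP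
    have hkN : k < N := Finset.mem_range.1 (Finset.mem_sdiff.1 hk).1
    have hsub : ∀ i ∈ Finset.range k \ F, i ∈ Finset.range N \ F := by
      intro i hi
      rw [Finset.mem_sdiff, Finset.mem_range] at hi ⊢
      exact ⟨hi.1.trans hkN, hi.2⟩
    have hbk := hb k hk
    have hdeg : (∑ i ∈ Finset.range k \ F, C (c i) * (b i).map (Int.castRingHom ℝ)).degree <
        ((b k).map (Int.castRingHom ℝ)).degree := by
      have h5 : ((b k).map (Int.castRingHom ℝ)).degree = (k : WithBot ℕ) := by
        rw [degree_eq_natDegree (hbk.1.map _).ne_zero, hbk.1.natDegree_map, hbk.2.1]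
      rw [h5]
      refine (degree_sum_le _ _).trans_lt ?_
      refine (Finset.sup_lt_iff (WithBot.bot_lt_coe k)).2 ?_
      intro i hi
      have h6 := hb i (hsub i hi)
      refine lt_of_le_of_lt (b := ((b i).map (Int.castRingHom ℝ)).degree) ?_
        (degree_map_le.trans_lt ?_)
      · rw [← smul_eq_C_mul]
        exact degree_smul_le _ _
      rw [degree_eq_natDegree h6.1.ne_zero, h6.2.1]
      exact WithBot.coe_lt_coe.2 (Finset.mem_range.1 (Finset.mem_sdiff.1 hi).1)
    have hPm : P.Monic := (hbk.1.map _).add_of_left hdeg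
    have hPd : P.natDegree = k := by
      rw [hP, natDegree_add_eq_left_of_degree_lt hdeg, hbk.1.natDegree_map, hbk.2.1]
    -- `G` divides `P`
    have hGP : G.map (Int.castRingHom ℝ) ∣ P := by
      refine dvd_add (Polynomial.map_dvd _ (hG k hk)) (Finset.dvd_sum fun i hi => ?_)
      exact (Polynomial.map_dvd _ (hG i (hsub i hi))).mul_left _
    obtain ⟨Q, hQ⟩ := hGP
    have hlc : ‖(Q.map (algebraMap ℝ ℂ)).leadingCoeff‖ = 1 := by
      obtain ⟨u, hu⟩ := hG k hk
      have h7 : G.leadingCoeff * u.leadingCoeff = 1 := by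
        rw [← leadingCoeff_mul, ← hu, hbk.1]
      have h8 : |G.leadingCoeff| = 1 := Int.isUnit_iff_abs_eq.1 (IsUnit.of_mul_eq_one _ h7)
      have h9 : (G.map (Int.castRingHom ℝ)).leadingCoeff = (G.leadingCoeff : ℝ) := by
        rw [leadingCoeff_map_of_injective (Int.castRingHom ℝ).injective_int]
        rfl
      have h10 : (G.leadingCoeff : ℝ) * Q.leadingCoeff = 1 := by
        rw [← h9, ← leadingCoeff_mul, ← hQ, hPm]
      have h11 : |(G.leadingCoeff : ℝ)| = 1 := by exact_mod_cast h8
      have h12 : |Q.leadingCoeff| = 1 := by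
        have := congrArg abs h10
        rwa [abs_mul, h11, one_mul, abs_one] at this
      rw [leadingCoeff_map]
      simpa using h12
    have h13 : MM G ≤ (P.map (algebraMap ℝ ℂ)).mahlerMeasure := by
      have e : P.map (algebraMap ℝ ℂ) = G.map (Int.castRingHom ℂ) * Q.map (algebraMap ℝ ℂ) := by
        rw [hQ, Polynomial.map_mul, Polynomial.map_map]
        congr 2
      rw [e, mahlerMeasure_mul, MM]
      refine le_mul_of_one_le_right (mahlerMeasure_nonneg _) ?_
      have := leadingCoeff_le_mahlerMeasure (Q.map (algebraMap ℝ ℂ))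
      rwa [hlc] at this
    refine h13.trans ((mahlerMeasure_le_sqrt_sum_sq_norm_coeff _).trans ?_)
    rw [Real.sqrt_le_left (Real.exp_pos _).le, ← Real.exp_nat_mul]
    have e2 : ((2 : ℕ) : ℝ) * (F.card * Real.log (N + 1) / N) =
        2 * F.card * Real.log (N + 1) / N := by
      push_cast
      ring
    rw [e2]
    refine le_trans ?_ hkc
    have h14 : (P.map (algebraMap ℝ ℂ)).support ⊆ Finset.range (k + 1) := by
      intro i hi
      rw [Finset.mem_range]
      have h5 := le_natDegree_of_mem_supp i hi
      have h6 : (P.map (algebraMap ℝ ℂ)).natDegree ≤ P.natDegree := natDegree_map_le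
      omega
    refine (Finset.sum_le_sum_of_subset_of_nonneg h14 fun _ _ _ => sq_nonneg _).trans ?_
    refine Finset.sum_le_sum fun j _ => ?_
    rw [coeff_map]
    have h7 : ‖(algebraMap ℝ ℂ) (P.coeff j)‖ ^ 2 = P.coeff j ^ 2 := by
      simp
    rw [h7]
  · -- the degree
    set k := (Finset.range N \ F).min' hne with hk
    have hk1 : k ∈ Finset.range N \ F := Finset.min'_mem _ _
    have hk2 : k ≤ F.card := by
      have h3 : Finset.range k ⊆ F := by
        intro j hj
        by_contra hjF
        have h4 : j ∈ Finset.range N \ F := by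
          rw [Finset.mem_sdiff, Finset.mem_range] at hk1 ⊢
          exact ⟨(Finset.mem_range.1 hj).trans hk1.1, hjF⟩
        have h5 := Finset.min'_le _ j h4
        have h6 := Finset.mem_range.1 hj
        omega
      have h7 := Finset.card_le_card h3
      rwa [Finset.card_range] at h7
    have h8 := hb k hk1
    have h9 := natDegree_le_of_dvd (hG k hk1) h8.1.ne_zero
    omega

end Pool.Agent.L7h89.DQ
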