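import Pool.Agent.L7h33.DQ.Stm

/-!
# Project DQ, part MUL: a flat polynomial has no zero of high multiplicity on the unit circle
-/

set_option autoImplicit false

namespace Pool.Agent.L7h89.DQ

open Polynomial Pool.Agent.L7h33.DQ Pool.Agent.K7.H54.DP

namespace Mu

/-- the operator `X d/dX` -/
noncomputable def th (P : ℂ[X]) : ℂ[X] := X * derivative P

lemma coeff_th (P : ℂ[X]) (j : ℕ) : (th P).coeff j = j * P.coeff j := by
  rw [th]
  cases j with
  | zero => simp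
  | succ j =>
    rw [coeff_X_mul, coeff_derivative]
    push_cast
    ring

lemma coeff_th_iter (P : ℂ[X]) (i j : ℕ) : ((th^[i]) P).coeff j = (j : ℂ) ^ i * P.coeff j := by
  induction i with
  | zero => simp
  | succ i ih =>
    rw [Function.iterate_succ_apply', coeff_th, ih]
    ring

lemma dvd_th (P : ℂ[X]) (ζ : ℂ) (n : ℕ) (h : (X - C ζ) ^ (n + 1) ∣ P) : (X - C ζ) ^ n ∣ th P := by
  obtain ⟨Q, rfl⟩ := h
  refine ⟨X * (((n : ℂ[X]) + 1) * Q + (X - C ζ) * derivative Q), ?_⟩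
  rw [th, derivative_mul, derivative_pow]
  simp only [map_add, derivative_sub, derivative_X, derivative_C, sub_zero, mul_one,
    Nat.add_sub_cancel, Nat.cast_add, Nat.cast_one, map_natCast, map_one]
  ring

lemma dvd_th_iter (P : ℂ[X]) (ζ : ℂ) (e i : ℕ) (hi : i ≤ e) (h : (X - C ζ) ^ e ∣ P) :
    (X - C ζ) ^ (e - i) ∣ (th^[i]) P := by
  induction i with
  | zero => simpa using h
  | succ i ih =>
    rw [Function.iterate_succ_apply']
    refine dvd_th _ _ _ ?_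
    have h1 := ih (by omega)
    have h2 : e - (i + 1) + 1 = e - i := by omega
    rwa [h2]

lemma eval_th_iter (P : ℂ[X]) (ζ : ℂ) (e i N : ℕ) (hi : i < e) (h : (X - C ζ) ^ e ∣ P)
    (hN : P.natDegree < N) : ∑ j ∈ Finset.range N, (j : ℂ) ^ i * P.coeff j * ζ ^ j = 0 := by
  have h1 := dvd_th_iter P ζ e i hi.le h
  have h2 : ((th^[i]) P).eval ζ = 0 := by
    have h3 : (X - C ζ) ∣ (th^[i]) P := (dvd_pow_self _ (by omega)).trans h1
    exact dvd_iff_isRoot.1 h3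
  have h4 : ((th^[i]) P).natDegree < N := by
    refine lt_of_le_of_lt ?_ hN
    refine natDegree_le_iff_coeff_eq_zero.2 fun j hj => ?_
    rw [coeff_th_iter, coeff_eq_zero_of_natDegree_lt hj, mul_zero]
  rw [eval_eq_sum_range' h4] at h2
  rw [← h2]
  exact Finset.sum_congr rfl fun j _ => by rw [coeff_th_iter]

lemma sum_zero (P : ℂ[X]) (ζ : ℂ) (e N : ℕ) (h : (X - C ζ) ^ e ∣ P) (hN : P.natDegree < N)
    (f : ℂ[X]) (hf : f.natDegree < e) :
    ∑ j ∈ Finset.range N, f.eval (j : ℂ) * P.coeff j * ζ ^ j = 0 := by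
  have h1 : ∀ j ∈ Finset.range N, f.eval (j : ℂ) * P.coeff j * ζ ^ j =
      ∑ i ∈ Finset.range e, f.coeff i * ((j : ℂ) ^ i * P.coeff j * ζ ^ j) := by
    intro j _
    rw [eval_eq_sum_range' hf, Finset.sum_mul, Finset.sum_mul]
    exact Finset.sum_congr rfl fun i _ => by ring
  rw [Finset.sum_congr rfl h1, Finset.sum_comm]
  refine Finset.sum_eq_zero fun i hi => ?_
  rw [← Finset.mul_sum, eval_th_iter P ζ e i N (Finset.mem_range.1 hi) h hN, mul_zero]

/-- the growth of the Chebyshev polynomials -/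
lemma cheb (x : ℝ) (hx : 1 ≤ x) (k : ℕ) :
    1 + (k : ℝ) ^ 2 * (x - 1) ≤ (Chebyshev.T ℝ (k : ℤ)).eval x ∧
      (2 * (k : ℝ) + 1) * (x - 1) ≤
        (Chebyshev.T ℝ ((k + 1 : ℕ) : ℤ)).eval x - (Chebyshev.T ℝ (k : ℤ)).eval x := by
  induction k with
  | zero => simp
  | succ k ih =>
    obtain ⟨h1, h2⟩ := ih
    have h3 : (Chebyshev.T ℝ (((k + 1) + 1 : ℕ) : ℤ)).eval x =
        2 * x * (Chebyshev.T ℝ ((k + 1 : ℕ) : ℤ)).eval x - (Chebyshev.T ℝ (k : ℤ)).eval x := by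
      have := Chebyshev.T_add_two ℝ (k : ℤ)
      have h4 : (((k + 1) + 1 : ℕ) : ℤ) = (k : ℤ) + 2 := by push_cast; ring
      have h5 : ((k + 1 : ℕ) : ℤ) = (k : ℤ) + 1 := by push_cast; ring
      rw [h4, h5, this]
      simp
    have h6 : 1 ≤ (Chebyshev.T ℝ ((k + 1 : ℕ) : ℤ)).eval x := Chebyshev.one_le_eval_T_real _ hx
    rw [h3]
    push_cast
    push_cast at h2 h6
    constructor
    · nlinarith
    · nlinarith

end Mu

/-- **MUL** -/
theorem s_MUL : S_MUL := by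
  refine ⟨34 ^ 8, fun N hN D hD hflat ζ e hζ hdvd => ?_⟩
  by_contra hcon
  push Not at hcon
  have hN1 : (34 : ℝ) ^ 8 ≤ N := by exact_mod_cast hN
  have hN0 : (1 : ℝ) < N := by nlinarith
  have hN2 : 2 ≤ N := by
    have : (1 : ℕ) < N := by exact_mod_cast hN0
    omega
  set k : ℕ := Nat.sqrt N + 1 with hk
  set m : ℕ := Nat.log 2 N + 1 with hm
  have hkN : N ≤ k ^ 2 := by
    have := Nat.lt_succ_sqrt N
    rw [hk, sq]
    exact this.le
  have hmN : N < 2 ^ m := Nat.lt_pow_succ_log_self (by norm_num) N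
  -- the degree
  have hkm : m * k < e := by
    have h1 : (k : ℝ) ≤ 2 * (N : ℝ) ^ (1 / 2 : ℝ) := by
      rw [← Real.sqrt_eq_rpow]
      have h2 : ((Nat.sqrt N : ℕ) : ℝ) ≤ Real.sqrt N := Real.nat_sqrt_le_real_sqrt
      have h3 : (1 : ℝ) ≤ Real.sqrt N := Real.one_le_sqrt.2 hN0.le
      rw [hk]
      push_cast
      linarith
    have h4 : (m : ℝ) ≤ 17 * (N : ℝ) ^ (1 / 8 : ℝ) := by
      have h5 : ((2 : ℝ)) ^ (Nat.log 2 N) ≤ N := by
        exact_mod_cast Nat.pow_log_le_self 2 (by omega)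
      have h6 : (Nat.log 2 N : ℝ) * Real.log 2 ≤ Real.log N := by
        rw [← Real.log_pow]
        exact Real.log_le_log (by positivity) h5
      have h7 : Real.log N ≤ (N : ℝ) ^ (1 / 8 : ℝ) / (1 / 8) :=
        Real.log_le_rpow_div (by positivity) (by norm_num)
      have h8 : (1 / 2 : ℝ) ≤ Real.log 2 := by
        have := Real.log_two_gt_d9
        linarith
      have h9 : (1 : ℝ) ≤ (N : ℝ) ^ (1 / 8 : ℝ) := Real.one_le_rpow hN0.le (by norm_num)
      have h10 : (Nat.log 2 N : ℝ) * (1 / 2) ≤ Nat.log 2 N * Real.log 2 :=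
        mul_le_mul_of_nonneg_left h8 (Nat.cast_nonneg _)
      rw [hm]
      push_cast
      linarith
    have h11 : (34 : ℝ) ≤ (N : ℝ) ^ (1 / 8 : ℝ) := by
      have : (34 : ℝ) = ((34 : ℝ) ^ (8 : ℕ)) ^ (1 / 8 : ℝ) := by
        rw [← Real.rpow_natCast, ← Real.rpow_mul (by norm_num)]
        norm_num
      rw [this]
      exact Real.rpow_le_rpow (by positivity) hN1 (by norm_num)
    have h12 : ((m * k : ℕ) : ℝ) ≤ (N : ℝ) ^ (3 / 4 : ℝ) := by
      push_cast
      have e1 : (N : ℝ) ^ (3 / 4 : ℝ) =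
          (N : ℝ) ^ (1 / 8 : ℝ) * (N : ℝ) ^ (1 / 8 : ℝ) * (N : ℝ) ^ (1 / 2 : ℝ) := by
        rw [← Real.rpow_add (by linarith), ← Real.rpow_add (by linarith)]
        norm_num
      rw [e1]
      have h13 : 0 ≤ (N : ℝ) ^ (1 / 8 : ℝ) := by positivity
      have h14 : 0 ≤ (N : ℝ) ^ (1 / 2 : ℝ) := by positivity
      calc (m : ℝ) * k ≤ (17 * (N : ℝ) ^ (1 / 8 : ℝ)) * (2 * (N : ℝ) ^ (1 / 2 : ℝ)) :=
            mul_le_mul h4 h1 (Nat.cast_nonneg _) (by positivity)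
        _ = 34 * (N : ℝ) ^ (1 / 8 : ℝ) * (N : ℝ) ^ (1 / 2 : ℝ) := by ring
        _ ≤ _ := by gcongr
    have h15 : ((m * k : ℕ) : ℝ) < e := lt_of_le_of_lt h12 hcon
    exact_mod_cast h15
  -- the test polynomial
  set j₀ : ℕ := D.natTrailingDegree with hj₀
  have hj₀c : D.coeff j₀ ≠ 0 := by
    rw [hj₀, ← trailingCoeff]
    exact trailingCoeff_nonzero_iff_nonzero.2 hD
  have hj₀N : j₀ < N := lt_of_le_of_lt (natTrailingDegree_le_natDegree D) hflat.1
  have hNr : (0 : ℝ) < N - 1 := by linarith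
  set l : ℝ[X] := C (((N : ℝ) + 1) / (N - 1)) - C (2 / ((N : ℝ) - 1)) * (X - C (j₀ : ℝ)) with hl
  set f : ℝ[X] := ((Chebyshev.T ℝ (k : ℤ)).comp l) ^ m with hf
  have hfd : f.natDegree < e := by
    refine lt_of_le_of_lt ?_ hkm
    rw [hf]
    refine natDegree_pow_le.trans (Nat.mul_le_mul_left _ ?_)
    refine natDegree_comp_le.trans ?_
    rw [Chebyshev.natDegree_T, Int.natAbs_natCast]
    have h1 : l.natDegree ≤ 1 := by
      rw [hl]
      refine (natDegree_sub_le _ _).trans (max_le (by simp) ?_)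
      refine (natDegree_C_mul_le _ _).trans ?_
      rw [natDegree_X_sub_C]
    exact (Nat.mul_le_mul_left _ h1).trans (by rw [mul_one])
  have hfl : ∀ x : ℝ, f.eval x =
      ((Chebyshev.T ℝ (k : ℤ)).eval (((N : ℝ) + 1 - 2 * (x - j₀)) / (N - 1))) ^ m := by
    intro x
    rw [hf, eval_pow, eval_comp]
    congr 2
    rw [hl]
    simp only [eval_sub, eval_mul, eval_C, eval_X]
    field_simp
  have hf0 : (N : ℝ) < f.eval (j₀ : ℝ) := by
    rw [hfl]
    have h1 : ((N : ℝ) + 1 - 2 * ((j₀ : ℝ) - j₀)) / (N - 1) = 1 + 2 / (N - 1) := by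
      field_simp
      ring
    rw [h1]
    have h2 := (Mu.cheb (1 + 2 / ((N : ℝ) - 1)) (by
      have : 0 ≤ 2 / ((N : ℝ) - 1) := by positivity
      linarith) k).1
    have h3 : (2 : ℝ) ≤ 1 + (k : ℝ) ^ 2 * (1 + 2 / ((N : ℝ) - 1) - 1) := by
      have h4 : (N : ℝ) ≤ (k : ℝ) ^ 2 := by exact_mod_cast hkN
      have h5 : 1 ≤ (k : ℝ) ^ 2 * (2 / ((N : ℝ) - 1)) := by
        rw [mul_div_assoc', le_div_iff₀ hNr]
        nlinarith
      linarith
    calc (N : ℝ) < 2 ^ m := by exact_mod_cast hmN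
      _ ≤ _ := pow_le_pow_left₀ (by norm_num) (h3.trans h2) _
  have hfj : ∀ j : ℕ, j₀ < j → j < N → |f.eval (j : ℝ)| ≤ 1 := by
    intro j h1 h2
    rw [hfl, abs_pow]
    refine pow_le_one₀ (abs_nonneg _) (Chebyshev.abs_eval_T_real_le_one _ ?_)
    have h3 : (j₀ : ℝ) + 1 ≤ j := by exact_mod_cast h1
    have h4 : (j : ℝ) + 1 ≤ N := by exact_mod_cast h2
    have h5 : (0 : ℝ) ≤ j₀ := Nat.cast_nonneg _
    rw [abs_le, le_div_iff₀ hNr, div_le_iff₀ hNr]
    constructor <;> linarith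
  -- the identity
  have hPd : (D.map (Int.castRingHom ℂ)).natDegree < N := lt_of_le_of_lt natDegree_map_le hflat.1
  have key := Mu.sum_zero _ ζ e N hdvd hPd (f.map (algebraMap ℝ ℂ))
    (lt_of_le_of_lt natDegree_map_le hfd)
  have hev : ∀ j : ℕ, (f.map (algebraMap ℝ ℂ)).eval (j : ℂ) = ((f.eval (j : ℝ) : ℝ) : ℂ) := by
    intro j
    have : ((j : ℕ) : ℂ) = (algebraMap ℝ ℂ) (j : ℝ) := by simp
    rw [this, eval_map, eval₂_at_apply]
    rfl
  rw [← Finset.add_sum_erase _ _ (Finset.mem_range.2 hj₀N)] at key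
  have h1 : ‖(f.map (algebraMap ℝ ℂ)).eval (j₀ : ℂ) * (D.map (Int.castRingHom ℂ)).coeff j₀ * ζ ^ j₀‖ ≤
      N := by
    rw [eq_neg_of_add_eq_zero_left key, norm_neg]
    refine (norm_sum_le _ _).trans ?_
    calc ∑ j ∈ (Finset.range N).erase j₀, ‖(f.map (algebraMap ℝ ℂ)).eval (j : ℂ) *
          (D.map (Int.castRingHom ℂ)).coeff j * ζ ^ j‖
        ≤ ∑ j ∈ (Finset.range N).erase j₀, (1 : ℝ) := by
          refine Finset.sum_le_sum fun j hj => ?_
          rw [Finset.mem_erase, Finset.mem_range] at hj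
          rw [norm_mul, norm_mul, norm_pow, hζ, one_pow, mul_one, coeff_map, hev,
            Complex.norm_real, Real.norm_eq_abs, eq_intCast, Complex.norm_intCast]
          rcases lt_or_gt_of_ne hj.1 with h | h
          · rw [coeff_eq_zero_of_lt_natTrailingDegree h]
            simp
          · have h2 : |((D.coeff j : ℤ) : ℝ)| ≤ 1 := by exact_mod_cast hflat.2 j
            exact mul_le_one₀ (hfj j h hj.2) (abs_nonneg _) h2
      _ ≤ N := by
          rw [Finset.sum_const, Finset.card_erase_of_mem (Finset.mem_range.2 hj₀N),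
            Finset.card_range, nsmul_eq_mul, mul_one]
          exact_mod_cast Nat.sub_le _ _
  rw [norm_mul, norm_mul, norm_pow, hζ, one_pow, mul_one, coeff_map, hev,
    Complex.norm_real, Real.norm_eq_abs, eq_intCast, Complex.norm_intCast] at h1
  have h2 : (1 : ℝ) ≤ |((D.coeff j₀ : ℤ) : ℝ)| := by exact_mod_cast Int.one_le_abs hj₀c
  have h3 : (N : ℝ) < |f.eval (j₀ : ℝ)| := hf0.trans_le (le_abs_self _)
  have h4 : |f.eval (j₀ : ℝ)| ≤ |f.eval (j₀ : ℝ)| * |((D.coeff j₀ : ℤ) : ℝ)| :=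
    le_mul_of_one_le_right (abs_nonneg _) h2
  linarith

end Pool.Agent.L7h89.DQ
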