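import Pool.Agent.L7h33.DQ.Stm

/-!
# Project DQ, part REG: ridge regression
-/

set_option autoImplicit false

namespace Pool.Agent.L7h89.DQ

open Matrix

namespace Rg

variable {ι : Type*} [Fintype ι] [DecidableEq ι]

/-- `1 + ∑ i ∈ S, R i R iᵀ` -/
noncomputable def A (R : ℕ → ι → ℝ) (S : Finset ℕ) : Matrix ι ι ℝ :=
  1 + ∑ i ∈ S, vecMulVec (R i) (R i)

omit [DecidableEq ι] in
lemma posSemi_v (u : ι → ℝ) : (vecMulVec u u).PosSemidef := by
  have := posSemidef_vecMulVec_self_star u
  simpa using this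

lemma posDef (R : ℕ → ι → ℝ) (S : Finset ℕ) : (A R S).PosDef := by
  have h1 : (∑ i ∈ S, vecMulVec (R i) (R i)).PosSemidef := by
    classical
    induction S using Finset.induction_on with
    | empty => simpa using PosSemidef.zero
    | insert a s ha ih =>
      rw [Finset.sum_insert ha]
      exact (posSemi_v _).add ih
  exact PosDef.one.add_posSemidef h1

lemma det_pos' (R : ℕ → ι → ℝ) (S : Finset ℕ) : 0 < (A R S).det := (posDef R S).det_pos

/-- the factor of the determinant -/
noncomputable def q (R : ℕ → ι → ℝ) (S : Finset ℕ) (u : ι → ℝ) : ℝ := 1 + u ⬝ᵥ ((A R S)⁻¹ *ᵥ u)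

lemma det_insert (R : ℕ → ι → ℝ) (S : Finset ℕ) (k : ℕ) (hk : k ∉ S) :
    (A R (insert k S)).det = (A R S).det * q R S (R k) := by
  have h1 : A R (insert k S) = A R S + replicateCol Unit (R k) * replicateRow Unit (R k) := by
    rw [A, A, Finset.sum_insert hk, vecMulVec_eq Unit (R k) (R k)]
    abel
  rw [h1, det_add_replicateCol_mul_replicateRow (det_pos' R S).ne'.isUnit, q]
  congr 1
  rw [det_unique, Matrix.mul_assoc]
  simp [Matrix.mul_apply, dotProduct, mulVec]

/-- the product formula -/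
lemma det_prod (R : ℕ → ι → ℝ) (F : Finset ℕ) (N : ℕ) :
    (A R (Finset.range N \ F)).det =
      ∏ k ∈ Finset.range N \ F, q R (Finset.range k \ F) (R k) := by
  induction N with
  | zero => simp [A]
  | succ N ih =>
    by_cases hN : N ∈ F
    · have h1 : Finset.range (N + 1) \ F = Finset.range N \ F := by
        ext j
        simp only [Finset.mem_sdiff, Finset.mem_range]
        constructor
        · rintro ⟨h, h'⟩
          refine ⟨?_, h'⟩
          rcases Nat.lt_succ_iff_lt_or_eq.1 h with h | rfl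
          · exact h
          · exact absurd hN h'
        · rintro ⟨h, h'⟩
          exact ⟨by omega, h'⟩
      rw [h1, ih]
    · have h1 : Finset.range (N + 1) \ F = insert N (Finset.range N \ F) := by
        ext j
        simp only [Finset.mem_sdiff, Finset.mem_range, Finset.mem_insert]
        constructor
        · rintro ⟨h, h'⟩
          rcases Nat.lt_succ_iff_lt_or_eq.1 h with h | rfl
          · exact Or.inr ⟨h, h'⟩
          · exact Or.inl rfl
        · rintro (rfl | ⟨h, h'⟩)
          · exact ⟨by omega, hN⟩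
          · exact ⟨by omega, h'⟩
      have h2 : N ∉ Finset.range N \ F := by simp
      rw [h1, det_insert _ _ _ h2, Finset.prod_insert h2, ih, mul_comm]

/-- the determinant is at most a power of the mean of the diagonal -/
lemma det_le (M : Matrix ι ι ℝ) (hM : M.PosDef) (c : ℝ) (hc : M.trace ≤ Fintype.card ι * c) : M.det ≤ c ^ Fintype.card ι := by
  have hH := hM.isHermitian
  have h1 : M.det = ∏ i, hH.eigenvalues i := by
    simpa using hH.det_eq_prod_eigenvalues
  have h2 : M.trace = ∑ i, hH.eigenvalues i := by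
    simpa using hH.trace_eq_sum_eigenvalues
  rcases isEmpty_or_nonempty ι with h | h
  · simp
  have hp : (0 : ℝ) < Fintype.card ι := by exact_mod_cast Fintype.card_pos
  have h3 := Real.geom_mean_le_arith_mean (Finset.univ : Finset ι) (fun _ => (1 : ℝ))
    hH.eigenvalues (fun _ _ => zero_le_one) (by simpa using hp)
    (fun i _ => (hM.eigenvalues_pos i).le)
  simp only [Real.rpow_one, one_mul, Finset.sum_const, Finset.card_univ, nsmul_eq_mul,
    mul_one] at h3
  rw [← h1, ← h2] at h3
  have h4 : M.trace / Fintype.card ι ≤ c := by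
    rw [div_le_iff₀ hp]
    linarith
  have h5 : (0 : ℝ) ≤ M.det := hM.det_pos.le
  have h6 : M.det = (M.det ^ ((Fintype.card ι : ℝ))⁻¹) ^ Fintype.card ι := by
    rw [← Real.rpow_natCast, ← Real.rpow_mul h5, inv_mul_cancel₀ hp.ne', Real.rpow_one]
  rw [h6]
  exact pow_le_pow_left₀ (Real.rpow_nonneg h5 _) (h3.trans h4) _

lemma det_A_le (R : ℕ → ι → ℝ) (S : Finset ℕ) (hR : ∀ i ∈ S, ∀ j, |R i j| ≤ 1) :
    (A R S).det ≤ (1 + S.card : ℝ) ^ Fintype.card ι := by
  refine det_le _ (posDef R S) _ ?_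
  rw [A, trace_add, trace_one, trace_sum, mul_add, mul_one]
  refine add_le_add le_rfl ?_
  rw [mul_comm, ← nsmul_eq_mul, ← Finset.sum_const]
  refine Finset.sum_le_sum fun i hi => ?_
  rw [trace]
  calc ∑ j, (vecMulVec (R i) (R i)).diag j ≤ ∑ j : ι, (1 : ℝ) := by
        refine Finset.sum_le_sum fun j _ => ?_
        rw [diag_apply, vecMulVec_apply, ← abs_mul_abs_self]
        exact mul_le_one₀ (hR i hi j) (abs_nonneg _) (hR i hi j)
    _ = Fintype.card ι := by simp

/-- the optimal combination -/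
lemma opt (R : ℕ → ι → ℝ) (S : Finset ℕ) (u : ι → ℝ) :
    let y := (A R S)⁻¹ *ᵥ u
    (u + ∑ i ∈ S, (-(R i ⬝ᵥ y)) • R i = y) ∧
      1 + ∑ i ∈ S, (-(R i ⬝ᵥ y)) ^ 2 + y ⬝ᵥ y = q R S u := by
  intro y
  have h1 : A R S *ᵥ y = u := by
    change A R S *ᵥ ((A R S)⁻¹ *ᵥ u) = u
    rw [mulVec_mulVec, Matrix.mul_nonsing_inv _ (det_pos' R S).ne'.isUnit, one_mulVec]
  have h2 : A R S *ᵥ y = y + ∑ i ∈ S, (R i ⬝ᵥ y) • R i := by
    rw [A, add_mulVec, one_mulVec, sum_mulVec]
    congr 1
    refine Finset.sum_congr rfl fun i _ => ?_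
    rw [vecMulVec_mulVec]
    ext j
    simp [mul_comm]
  constructor
  · rw [← h1, h2]
    simp only [neg_smul, Finset.sum_neg_distrib]
    abel
  · have h3 : q R S u = 1 + u ⬝ᵥ y := rfl
    rw [h3]
    conv_rhs => rw [← h1, h2]
    rw [add_dotProduct, sum_dotProduct]
    simp only [smul_dotProduct, smul_eq_mul, neg_sq]
    have h4 : ∀ i ∈ S, (R i ⬝ᵥ y) * (R i ⬝ᵥ y) = (R i ⬝ᵥ y) ^ 2 := fun i _ => by ring
    rw [Finset.sum_congr rfl h4]
    ring

/-- there is a small factor -/
lemma exists_small (R : ℕ → ι → ℝ) (F : Finset ℕ) (N : ℕ) (hN : 1 ≤ N)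
    (hF : F ⊆ Finset.range N) (h2 : 2 * F.card ≤ N) (hι : Fintype.card ι = F.card)
    (hR : ∀ i ∈ Finset.range N \ F, ∀ j, |R i j| ≤ 1) :
    ∃ k ∈ Finset.range N \ F, q R (Finset.range k \ F) (R k) ≤
      Real.exp (2 * F.card * Real.log (N + 1) / N) := by
  by_contra hcon
  push Not at hcon
  have hn : (Finset.range N \ F).card = N - F.card := by
    rw [Finset.card_sdiff_of_subset hF, Finset.card_range]
  have hn1 : 1 ≤ N - F.card := by omega
  have hne : (Finset.range N \ F).Nonempty := by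
    rw [← Finset.card_pos, hn]
    omega
  have h3 := det_A_le R (Finset.range N \ F) hR
  rw [det_prod, hι, hn] at h3
  have h4 : ∏ k ∈ Finset.range N \ F, Real.exp (2 * F.card * Real.log (N + 1) / N) <
      ∏ k ∈ Finset.range N \ F, q R (Finset.range k \ F) (R k) :=
    Finset.prod_lt_prod_of_nonempty (fun i _ => Real.exp_pos _) hcon hne
  rw [Finset.prod_const, hn] at h4
  have hNr : (0 : ℝ) < N := by exact_mod_cast hN
  have h5 : ((1 : ℝ) + (N - F.card : ℕ)) ^ F.card ≤ ((N : ℝ) + 1) ^ F.card := by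
    refine pow_le_pow_left₀ (by positivity) ?_ _
    have : ((N - F.card : ℕ) : ℝ) ≤ N := by exact_mod_cast Nat.sub_le _ _
    linarith
  have h6 : ((N : ℝ) + 1) ^ F.card = Real.exp (F.card * Real.log (N + 1)) := by
    rw [mul_comm, Real.exp_mul, Real.exp_log (by positivity), Real.rpow_natCast]
  have h7 : Real.exp (F.card * Real.log (N + 1)) ≤
      Real.exp (2 * F.card * Real.log (N + 1) / N) ^ (N - F.card) := by
    rw [← Real.exp_nat_mul]
    refine Real.exp_le_exp.2 ?_
    have h8 : (N : ℝ) / 2 ≤ ((N - F.card : ℕ) : ℝ) := by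
      rw [div_le_iff₀ (by norm_num)]
      have : N ≤ (N - F.card) * 2 := by omega
      exact_mod_cast this
    have h9 : 0 ≤ Real.log (N + 1) := Real.log_nonneg (by linarith)
    calc F.card * Real.log (N + 1) = N / 2 * (2 * F.card * Real.log (N + 1) / N) := by
          field_simp
      _ ≤ _ := mul_le_mul_of_nonneg_right h8 (by positivity)
  linarith

end Rg

open Polynomial Pool.Agent.L7h33.DQ in
/-- **REG** -/
theorem s_REG : S_REG := by
  intro N F b hN hF h2 hb
  obtain ⟨k, hk, hq⟩ := Rg.exists_small (ι := F) (fun i j => (b i).coeff j) F N hN hF h2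
    (by simp) (fun i hi j => (hb i hi).2.2.1 j)
  set R : ℕ → F → ℝ := fun i j => (b i).coeff j with hR
  obtain ⟨h3, h4⟩ := Rg.opt R (Finset.range k \ F) (R k)
  set y := (Rg.A R (Finset.range k \ F))⁻¹ *ᵥ (R k) with hy
  set c : ℕ → ℝ := fun i => -(R i ⬝ᵥ y) with hc
  refine ⟨k, hk, c, le_trans ?_ hq⟩
  have hkN : k < N := Finset.mem_range.1 (Finset.mem_sdiff.1 hk).1
  have hkF : k ∉ F := (Finset.mem_sdiff.1 hk).2
  set P : ℝ[X] := b k + ∑ i ∈ Finset.range k \ F, C (c i) * b i with hP
  have hco : ∀ j, P.coeff j = (b k).coeff j + ∑ i ∈ Finset.range k \ F, c i * (b i).coeff j := by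
    intro j
    rw [hP, coeff_add, finsetSum_coeff]
    simp only [coeff_C_mul]
  have hsub : ∀ i ∈ Finset.range k \ F, i ∈ Finset.range N \ F := by
    intro i hi
    rw [Finset.mem_sdiff, Finset.mem_range] at hi ⊢
    exact ⟨hi.1.trans hkN, hi.2⟩
  -- the coordinates in `F`
  have hcF : ∀ j : F, P.coeff j = y j := by
    intro j
    rw [hco, ← h3]
    simp only [Pi.add_apply, Finset.sum_apply, Pi.smul_apply, smul_eq_mul]
    rfl
  -- the coordinates outside `F`
  have hcN : ∀ j ∈ Finset.range k \ F, P.coeff j = c j := by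
    intro j hj
    have hj' := Finset.mem_sdiff.1 hj
    rw [hco, (hb k hk).2.2.2 j (Finset.mem_range.1 hj'.1) hj'.2, zero_add,
      Finset.sum_eq_single_of_mem j hj]
    · have h5 := hb j (hsub j hj)
      have h6 : (b j).coeff j = 1 := by
        have := h5.1.coeff_natDegree
        rwa [h5.2.1] at this
      rw [h6, mul_one]
    · intro i hi hij
      have h5 := hb i (hsub i hi)
      rcases lt_or_gt_of_ne hij with h | h
      · rw [coeff_eq_zero_of_natDegree_lt (by rw [h5.2.1]; exact h), mul_zero]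
      · rw [h5.2.2.2 j h hj'.2, mul_zero]
  have hck : P.coeff k = 1 := by
    rw [hco]
    have h5 := hb k hk
    have h6 : (b k).coeff k = 1 := by
      have := h5.1.coeff_natDegree
      rwa [h5.2.1] at this
    rw [h6, Finset.sum_eq_zero, add_zero]
    intro i hi
    have h7 := hb i (hsub i hi)
    have h8 : i < k := Finset.mem_range.1 (Finset.mem_sdiff.1 hi).1
    rw [coeff_eq_zero_of_natDegree_lt (by rw [h7.2.1]; exact h8), mul_zero]
  have hsplit : Finset.range (k + 1) = insert k (Finset.range k \ F) ∪ (Finset.range (k + 1) ∩ F) := by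
    ext j
    simp only [Finset.mem_union, Finset.mem_insert, Finset.mem_sdiff, Finset.mem_range,
      Finset.mem_inter]
    constructor
    · intro h
      by_cases hj : j ∈ F
      · exact Or.inr ⟨h, hj⟩
      · rcases Nat.lt_succ_iff_lt_or_eq.1 h with h | rfl
        · exact Or.inl (Or.inr ⟨h, hj⟩)
        · exact Or.inl (Or.inl rfl)
    · rintro ((rfl | ⟨h, -⟩) | ⟨h, -⟩) <;> omega
  have hdis : Disjoint (insert k (Finset.range k \ F)) (Finset.range (k + 1) ∩ F) := by
    rw [Finset.disjoint_left]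
    intro j hj hj'
    have h5 := (Finset.mem_inter.1 hj').2
    rcases Finset.mem_insert.1 hj with rfl | h
    · exact hkF h5
    · exact (Finset.mem_sdiff.1 h).2 h5
  rw [hsplit, Finset.sum_union hdis, Finset.sum_insert (by simp), hck, one_pow, ← h4]
  have e1 : ∑ j ∈ Finset.range k \ F, P.coeff j ^ 2 =
      ∑ i ∈ Finset.range k \ F, (-(R i ⬝ᵥ y)) ^ 2 :=
    Finset.sum_congr rfl fun j hj => by rw [hcN j hj]
  have e2 : ∑ j ∈ Finset.range (k + 1) ∩ F, P.coeff j ^ 2 ≤ y ⬝ᵥ y := by
    calc ∑ j ∈ Finset.range (k + 1) ∩ F, P.coeff j ^ 2 ≤ ∑ j ∈ F, P.coeff j ^ 2 :=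
          Finset.sum_le_sum_of_subset_of_nonneg Finset.inter_subset_right
            fun _ _ _ => sq_nonneg _
      _ = ∑ j : F, P.coeff j ^ 2 := (Finset.sum_coe_sort F fun j => P.coeff j ^ 2).symm
      _ = y ⬝ᵥ y := by
          rw [dotProduct]
          refine Finset.sum_congr rfl fun j _ => ?_
          rw [hcF j, sq]
  rw [e1]
  linarith

end Pool.Agent.L7h89.DQ
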