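import Pool.Agent.L7h33.DQ.Stm

/-!
# Project DQ, part SPA: the cofactors span all polynomials of degree `< 2 m`
-/

set_option autoImplicit false

namespace Pool.Agent.L7h89.DQ

open Polynomial Pool.Agent.L7h33.DQ Pool.Agent.K7.H54.DP

namespace Sp

/-- the cofactors -/
def Cof (Δ : Set ℤ[X]) (G : ℤ[X]) : Set ℤ[X] := {u | G * u ∈ Δ}

/-- the real span of the `X ^ k u`, `k < m` -/
noncomputable def W (Δ : Set ℤ[X]) (G : ℤ[X]) (m : ℕ) : Submodule ℝ ℝ[X] :=
  Submodule.span ℝ {Q | ∃ u ∈ Cof Δ G, ∃ k < m, Q = X ^ k * u.map (Int.castRingHom ℝ)}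

lemma mul_mem_W (Δ : Set ℤ[X]) (G : ℤ[X]) (m : ℕ) (u : ℤ[X]) (hu : u ∈ Cof Δ G) (a : ℝ[X])
    (ha : a.degree < (m : WithBot ℕ)) : a * u.map (Int.castRingHom ℝ) ∈ W Δ G m := by
  have h1 : a = ∑ k ∈ Finset.range m, C (a.coeff k) * X ^ k := by
    ext n
    rw [finsetSum_coeff]
    simp only [coeff_C_mul, coeff_X_pow, mul_ite, mul_one, mul_zero, Finset.sum_ite_eq,
      Finset.mem_range]
    split_ifs with h
    · rfl
    · exact coeff_eq_zero_of_degree_lt (ha.trans_le (by exact_mod_cast not_lt.1 h))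
  rw [h1, Finset.sum_mul]
  refine Submodule.sum_mem _ fun k hk => ?_
  rw [mul_assoc, ← smul_eq_C_mul]
  exact Submodule.smul_mem _ _ (Submodule.subset_span ⟨u, hu, k, Finset.mem_range.1 hk, rfl⟩)

/-- the ideal of the cofactors is everything -/
lemma one_mem (Δ : Set ℤ[X]) (G : ℤ[X]) (M : ℕ) (hG : G ≠ 0)
    (h : G.map (Int.castRingHom ℝ) ∈ Submodule.span ℝ (Mult Δ M)) (hd : ∀ P ∈ Δ, G ∣ P) :
    (1 : ℝ[X]) ∈ Submodule.span ℝ[X] ((fun u : ℤ[X] => u.map (Int.castRingHom ℝ)) '' Cof Δ G) := by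
  set I := Submodule.span ℝ[X] ((fun u : ℤ[X] => u.map (Int.castRingHom ℝ)) '' Cof Δ G) with hI
  have hG' : G.map (Int.castRingHom ℝ) ≠ 0 := by
    rwa [Ne, Polynomial.map_eq_zero_iff (Int.castRingHom ℝ).injective_int]
  have h1 : ∀ Q ∈ Submodule.span ℝ (Mult Δ M), ∃ w ∈ I, Q = G.map (Int.castRingHom ℝ) * w := by
    intro Q hQ
    induction hQ using Submodule.span_induction with
    | mem Q hQ =>
      obtain ⟨P, hP, i, -, rfl⟩ := hQ
      obtain ⟨u, rfl⟩ := hd P hP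
      refine ⟨X ^ i * u.map (Int.castRingHom ℝ), ?_, ?_⟩
      · rw [← smul_eq_mul]
        exact Submodule.smul_mem _ _ (Submodule.subset_span ⟨u, hP, rfl⟩)
      · rw [Polynomial.map_mul]
        ring
    | zero => exact ⟨0, Submodule.zero_mem _, by simp⟩
    | add x y _ _ hx hy =>
      obtain ⟨w, hw, rfl⟩ := hx
      obtain ⟨w', hw', rfl⟩ := hy
      exact ⟨w + w', Submodule.add_mem _ hw hw', by ring⟩
    | smul c x _ hx =>
      obtain ⟨w, hw, rfl⟩ := hx
      refine ⟨C c * w, ?_, ?_⟩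
      · rw [← smul_eq_mul]
        exact Submodule.smul_mem _ _ hw
      · rw [smul_eq_C_mul]
        ring
  obtain ⟨w, hw, h2⟩ := h1 _ h
  have h3 : w = 1 := by
    have h4 : G.map (Int.castRingHom ℝ) * w = G.map (Int.castRingHom ℝ) * 1 := by rw [← h2, mul_one]
    exact mul_left_cancel₀ hG' h4
  rwa [← h3]

/-- the span is everything of degree `< 2 m` -/
lemma W_eq (Δ : Set ℤ[X]) (G : ℤ[X]) (M m : ℕ) (hG : G ≠ 0)
    (hdeg : ∀ u ∈ Cof Δ G, u.natDegree ≤ m) (u₀ : ℤ[X]) (hu₀ : u₀ ∈ Cof Δ G)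
    (hu₀d : u₀.natDegree = m) (hu₀0 : u₀ ≠ 0)
    (h : G.map (Int.castRingHom ℝ) ∈ Submodule.span ℝ (Mult Δ M)) (hd : ∀ P ∈ Δ, G ∣ P) :
    degreeLT ℝ (2 * m) ≤ W Δ G m := by
  rcases Nat.eq_zero_or_pos m with rfl | hm
  · intro f hf
    rw [mem_degreeLT] at hf
    have : f = 0 := by
      rw [← degree_eq_bot]
      simpa using hf
    rw [this]
    exact Submodule.zero_mem _
  set w₀ : ℝ[X] := u₀.map (Int.castRingHom ℝ) with hw₀
  have hw₀0 : w₀ ≠ 0 := by
    rwa [hw₀, Ne, Polynomial.map_eq_zero_iff (Int.castRingHom ℝ).injective_int]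
  have hw₀d : w₀.degree = (m : WithBot ℕ) := by
    rw [degree_eq_natDegree hw₀0, hw₀, natDegree_map_eq_of_injective (Int.castRingHom ℝ).injective_int,
      hu₀d]
  -- every polynomial is in `W` up to a multiple of `w₀`
  have h1 : ∀ f ∈ Submodule.span ℝ[X] ((fun u : ℤ[X] => u.map (Int.castRingHom ℝ)) '' Cof Δ G),
      ∃ q : ℝ[X], f - q * w₀ ∈ W Δ G m := by
    intro f hf
    induction hf using Submodule.closure_induction with
    | zero => exact ⟨0, by simp⟩
    | add x y _ _ hx hy =>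
      obtain ⟨q, hq⟩ := hx
      obtain ⟨q', hq'⟩ := hy
      refine ⟨q + q', ?_⟩
      have : x + y - (q + q') * w₀ = (x - q * w₀) + (y - q' * w₀) := by ring
      rw [this]
      exact Submodule.add_mem _ hq hq'
    | smul_mem a x hx =>
      obtain ⟨u, hu, rfl⟩ := hx
      refine ⟨(a / w₀) * u.map (Int.castRingHom ℝ), ?_⟩
      have h2 : a • (fun u : ℤ[X] => u.map (Int.castRingHom ℝ)) u -
          a / w₀ * u.map (Int.castRingHom ℝ) * w₀ = (a % w₀) * u.map (Int.castRingHom ℝ) := by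
        have := EuclideanDomain.div_add_mod a w₀
        simp only [smul_eq_mul]
        linear_combination (-(u.map (Int.castRingHom ℝ))) * this
      rw [h2]
      refine mul_mem_W Δ G m u hu _ ?_
      rw [← hw₀d]
      exact EuclideanDomain.mod_lt a hw₀0
  have hWd : W Δ G m ≤ degreeLT ℝ (2 * m) := by
    rw [W, Submodule.span_le]
    rintro Q ⟨u, hu, k, hk, rfl⟩
    rw [SetLike.mem_coe, mem_degreeLT]
    refine lt_of_le_of_lt degree_le_natDegree ?_
    have h3 : (X ^ k * u.map (Int.castRingHom ℝ)).natDegree ≤ k + m := by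
      refine natDegree_mul_le.trans ?_
      rw [natDegree_X_pow]
      exact Nat.add_le_add_left (natDegree_map_le.trans (hdeg u hu)) _
    exact_mod_cast lt_of_le_of_lt h3 (by omega)
  intro f hf
  have hf1 : f ∈ Submodule.span ℝ[X] ((fun u : ℤ[X] => u.map (Int.castRingHom ℝ)) '' Cof Δ G) := by
    have := Submodule.smul_mem _ f (one_mem Δ G M hG h hd)
    rwa [smul_eq_mul, mul_one] at this
  obtain ⟨q, hq⟩ := h1 f hf1
  have h4 : q * w₀ ∈ degreeLT ℝ (2 * m) := by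
    have : q * w₀ = f - (f - q * w₀) := by ring
    rw [this]
    exact Submodule.sub_mem _ hf (hWd hq)
  have h5 : q.degree < (m : WithBot ℕ) := by
    by_cases hq0 : q = 0
    · rw [hq0, degree_zero]
      exact WithBot.bot_lt_coe _
    · rw [mem_degreeLT, degree_mul, hw₀d, degree_eq_natDegree hq0] at h4
      rw [degree_eq_natDegree hq0]
      have h6 : q.natDegree + m < 2 * m := by exact_mod_cast h4
      exact_mod_cast (by omega : q.natDegree < m)
  have h7 : f = (f - q * w₀) + q * w₀ := by ring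
  rw [h7]
  exact Submodule.add_mem _ hq (mul_mem_W Δ G m u₀ hu₀ q h5)

/-- the coefficient vector -/
noncomputable def phi (d : ℕ) : ℝ[X] →ₗ[ℝ] (Fin d → ℝ) where
  toFun Q := fun j => Q.coeff j
  map_add' Q Q' := by
    ext j
    simp
  map_smul' c Q := by
    ext j
    simp

lemma phi_surj (d : ℕ) : (degreeLT ℝ d).map (phi d) = ⊤ := by
  rw [eq_top_iff]
  intro a _
  refine ⟨∑ j : Fin d, C (a j) * X ^ (j : ℕ), ?_, ?_⟩
  · rw [SetLike.mem_coe]
    refine Submodule.sum_mem _ fun j _ => ?_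
    rw [mem_degreeLT]
    exact lt_of_le_of_lt (degree_C_mul_X_pow_le _ _) (by exact_mod_cast j.2)
  · ext j
    change (∑ i : Fin d, C (a i) * X ^ (i : ℕ)).coeff j = a j
    rw [finsetSum_coeff]
    simp only [coeff_C_mul, coeff_X_pow, mul_ite, mul_one, mul_zero]
    rw [Finset.sum_eq_single j]
    · simp
    · intro i _ hij
      rw [if_neg]
      intro h
      exact hij (Fin.ext h.symm)
    · simp

end Sp

/-- **SPA** -/
theorem s_SPA : S_SPA := by
  intro Δ G M m hG hΔ hex hspan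
  have hd : ∀ P ∈ Δ, G ∣ P := fun P hP => by
    obtain ⟨u, hu, -⟩ := hΔ P hP
    exact ⟨u, hu⟩
  have hdeg : ∀ u ∈ Sp.Cof Δ G, u.natDegree ≤ m := by
    intro u hu
    obtain ⟨u', hu', hd'⟩ := hΔ _ hu
    rwa [mul_left_cancel₀ hG hu']
  obtain ⟨P, hP, u₀, rfl, hu₀d, hu₀0⟩ := hex
  have h1 := Sp.W_eq Δ G M m hG hdeg u₀ hP hu₀d hu₀0 hspan hd
  set S : Set (Fin (2 * m) → ℝ) := Sp.phi (2 * m) ''
    {Q | ∃ u ∈ Sp.Cof Δ G, ∃ k < m, Q = X ^ k * u.map (Int.castRingHom ℝ)} with hS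
  have h2 : Submodule.span ℝ S = ⊤ := by
    rw [hS, ← Submodule.map_span, eq_top_iff, ← Sp.phi_surj]
    exact Submodule.map_mono h1
  obtain ⟨b, hbS, hbspan, hbli⟩ := exists_linearIndependent ℝ S
  rw [h2] at hbspan
  set B := Module.Basis.mk hbli (by rw [Subtype.range_coe, hbspan]) with hB
  have : Fintype b := FiniteDimensional.fintypeBasisIndex B
  have hcard : Fintype.card b = 2 * m := by
    rw [← Module.finrank_eq_card_basis B, Module.finrank_fin_fun]
  set e : Fin (2 * m) ≃ b := (Fintype.equivFinOfCardEq hcard).symm with he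
  have h3 : ∀ i : Fin (2 * m), ∃ v : ℤ[X], (∃ P ∈ Δ, ∃ u : ℤ[X], ∃ k < m, P = G * u ∧
      v = X ^ k * u) ∧ Sp.phi (2 * m) (v.map (Int.castRingHom ℝ)) = (e i : Fin (2 * m) → ℝ) := by
    intro i
    obtain ⟨Q, ⟨u, hu, k, hk, rfl⟩, h4⟩ := hbS (e i).2
    refine ⟨X ^ k * u, ⟨G * u, hu, u, k, hk, rfl, rfl⟩, ?_⟩
    rw [← h4]
    simp
  choose v hv1 hv2 using h3
  refine ⟨v, hv1, ?_⟩
  set V : Matrix (Fin (2 * m)) (Fin (2 * m)) ℤ := Matrix.of fun i j => (v i).coeff j with hV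
  have h5 : LinearIndependent ℝ (V.map (Int.castRingHom ℝ)).row := by
    have h6 : (V.map (Int.castRingHom ℝ)).row = (fun x : b => (x : Fin (2 * m) → ℝ)) ∘ e := by
      ext i j
      have := congrFun (hv2 i) j
      rw [Function.comp_apply, ← this]
      simp [hV, Sp.phi, Matrix.row]
    rw [h6]
    exact hbli.comp e e.injective
  have h7 := Matrix.linearIndependent_rows_iff_isUnit.1 h5
  rw [Matrix.isUnit_iff_isUnit_det] at h7
  have h8 : (V.map (Int.castRingHom ℝ)).det = ((V.det : ℤ) : ℝ) :=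
    (RingHom.map_det (Int.castRingHom ℝ) V).symm
  rw [h8] at h7
  intro h9
  rw [h9] at h7
  simp at h7

end Pool.Agent.L7h89.DQ
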